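import Mathlib

/-!
# MP_bed364_nt: the product formula for the sum of the exponential divisors
-/

set_option autoImplicit false

namespace Pool.Agent.EP364

open Finset

/-- the exponential divisors of `n` -/
def eDiv (n : ℕ) : Finset ℕ :=
  n.divisors.filter (fun d => ∀ p ∈ n.primeFactors, d.factorization p ∣ n.factorization p)

/-- the sum of the exponential divisors of `n` -/
def sigE (n : ℕ) : ℕ := ∑ d ∈ eDiv n, d

/-- `sE p a = ∑_{b ∣ a} p^b`, the sum of the exponential divisors of `p^a` -/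
def sE (p a : ℕ) : ℕ := ∑ b ∈ a.divisors, p ^ b

theorem mem_eDiv {n d : ℕ} : d ∈ eDiv n ↔ d ∣ n ∧ n ≠ 0 ∧
    ∀ p ∈ n.primeFactors, d.factorization p ∣ n.factorization p := by
  rw [eDiv, mem_filter, Nat.mem_divisors, and_assoc]

theorem fact_zero {m p : ℕ} (h : ¬ p ∣ m) : m.factorization p = 0 := by
  rw [Nat.factorization_eq_zero_iff]
  exact Or.inr (Or.inl h)

theorem sigE_mul (x y : ℕ) (h : x.Coprime y) : sigE (x * y) = sigE x * sigE y := by
  rcases Nat.eq_zero_or_pos x with hx | hx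
  · subst hx
    simp [sigE, eDiv]
  rcases Nat.eq_zero_or_pos y with hy | hy
  · subst hy
    simp [sigE, eDiv]
  have hx0 : x ≠ 0 := hx.ne'
  have hy0 : y ≠ 0 := hy.ne'
  have hcop : ∀ p, p.Prime → p ∣ x → ¬ p ∣ y := by
    intro p hp h1 h2
    have h3 := Nat.dvd_gcd h1 h2
    rw [h] at h3
    exact hp.one_lt.ne' (Nat.dvd_one.1 h3)
  unfold sigE
  rw [sum_mul_sum, ← sum_product']
  symm
  refine sum_nbij' (fun q => q.1 * q.2) (fun d => (Nat.gcd d x, Nat.gcd d y)) ?_ ?_ ?_ ?_ ?_
  · rintro ⟨a, b⟩ hab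
    rw [mem_product, mem_eDiv, mem_eDiv] at hab
    obtain ⟨⟨ha, _, ha'⟩, hb, _, hb'⟩ := hab
    have ha0 : a ≠ 0 := fun h0 => hx0 (Nat.eq_zero_of_zero_dvd (h0 ▸ ha))
    have hb0 : b ≠ 0 := fun h0 => hy0 (Nat.eq_zero_of_zero_dvd (h0 ▸ hb))
    rw [mem_eDiv]
    refine ⟨mul_dvd_mul ha hb, mul_ne_zero hx0 hy0, fun p hp => ?_⟩
    have hpp := Nat.prime_of_mem_primeFactors hp
    rw [Nat.primeFactors_mul hx0 hy0, mem_union] at hp
    change (a * b).factorization p ∣ (x * y).factorization p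
    rw [Nat.factorization_mul ha0 hb0, Nat.factorization_mul hx0 hy0, Finsupp.add_apply,
      Finsupp.add_apply]
    rcases hp with hp | hp
    · have h1 := Nat.dvd_of_mem_primeFactors hp
      have h2 := hcop p hpp h1
      rw [fact_zero h2, fact_zero (fun h3 => h2 (h3.trans hb)), add_zero, add_zero]
      exact ha' p hp
    · have h1 := Nat.dvd_of_mem_primeFactors hp
      have h2 : ¬ p ∣ x := fun h3 => hcop p hpp h3 h1
      rw [fact_zero h2, fact_zero (fun h3 => h2 (h3.trans ha)), zero_add, zero_add]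
      exact hb' p hp
  · intro d hd
    rw [mem_eDiv] at hd
    obtain ⟨hd, _, hd'⟩ := hd
    have hd0 : d ≠ 0 := fun h0 => mul_ne_zero hx0 hy0 (Nat.eq_zero_of_zero_dvd (h0 ▸ hd))
    rw [mem_product, mem_eDiv, mem_eDiv]
    have key : ∀ z w : ℕ, z ≠ 0 → w ≠ 0 → (∀ p, p.Prime → p ∣ z → ¬ p ∣ w) →
        (∀ p ∈ (z * w).primeFactors, d.factorization p ∣ (z * w).factorization p) →
        ∀ p ∈ z.primeFactors, (Nat.gcd d z).factorization p ∣ z.factorization p := by
      intro z w hz hw hc h1 p hp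
      have hpp := Nat.prime_of_mem_primeFactors hp
      have h2 := Nat.dvd_of_mem_primeFactors hp
      have h3 := h1 p (by rw [Nat.primeFactors_mul hz hw]; exact mem_union_left _ hp)
      rw [Nat.factorization_mul hz hw, Finsupp.add_apply, fact_zero (hc p hpp h2), add_zero] at h3
      have h4 : 0 < z.factorization p := hpp.factorization_pos_of_dvd hz h2
      have h5 := Nat.le_of_dvd h4 h3
      rw [Nat.factorization_gcd hd0 hz, Finsupp.inf_apply, min_eq_left h5]
      exact h3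
    refine ⟨⟨Nat.gcd_dvd_right _ _, hx0, key x y hx0 hy0 hcop hd'⟩,
      Nat.gcd_dvd_right _ _, hy0, key y x hy0 hx0 (fun p hp h1 h2 => hcop p hp h2 h1) ?_⟩
    rw [mul_comm]
    exact hd'
  · rintro ⟨a, b⟩ hab
    rw [mem_product, mem_eDiv, mem_eDiv] at hab
    obtain ⟨⟨ha, _, _⟩, hb, _, _⟩ := hab
    refine Prod.ext ?_ ?_
    · change Nat.gcd (a * b) x = a
      rw [Nat.Coprime.gcd_mul_right_cancel _ (h.coprime_dvd_right hb).symm]
      exact Nat.gcd_eq_left ha
    · change Nat.gcd (a * b) y = b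
      rw [Nat.Coprime.gcd_mul_left_cancel _ (h.coprime_dvd_left ha)]
      exact Nat.gcd_eq_left hb
  · intro d hd
    rw [mem_eDiv] at hd
    change Nat.gcd d x * Nat.gcd d y = d
    rw [← Nat.Coprime.gcd_mul _ h]
    exact Nat.gcd_eq_left hd.1
  · intro q _
    rfl

theorem sigE_one : sigE 1 = 1 := by
  simp [sigE, eDiv]

theorem sigE_prime_pow {p a : ℕ} (hp : p.Prime) (ha : a ≠ 0) : sigE (p ^ a) = sE p a := by
  unfold sigE sE
  symm
  refine sum_nbij (fun b => p ^ b) ?_ ?_ ?_ ?_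
  · intro b hb
    rw [Nat.mem_divisors] at hb
    rw [mem_eDiv]
    refine ⟨pow_dvd_pow _ (Nat.le_of_dvd (Nat.pos_of_ne_zero ha) hb.1), pow_ne_zero _ hp.ne_zero,
      fun q hq => ?_⟩
    rw [Nat.primeFactors_prime_pow ha hp, mem_singleton] at hq
    subst hq
    rw [hp.factorization_pow, hp.factorization_pow, Finsupp.single_eq_same, Finsupp.single_eq_same]
    exact hb.1
  · intro b _ c _ h
    exact Nat.pow_right_injective hp.two_le h
  · intro d hd
    rw [mem_coe, mem_eDiv] at hd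
    obtain ⟨h1, _, h3⟩ := hd
    obtain ⟨b, hb, rfl⟩ := (Nat.dvd_prime_pow hp).1 h1
    have h4 := h3 p (by rw [Nat.primeFactors_prime_pow ha hp, mem_singleton])
    rw [hp.factorization_pow, hp.factorization_pow, Finsupp.single_eq_same,
      Finsupp.single_eq_same] at h4
    refine ⟨b, ?_, rfl⟩
    rw [mem_coe, Nat.mem_divisors]
    exact ⟨h4, ha⟩
  · intro b _
    rfl

/-- the product formula -/
theorem sigE_eq {n : ℕ} (hn : n ≠ 0) :
    sigE n = ∏ p ∈ n.primeFactors, sE p (n.factorization p) := by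
  rw [Nat.multiplicative_factorization sigE sigE_mul sigE_one hn, Finsupp.prod,
    Nat.support_factorization]
  refine prod_congr rfl fun p hp => ?_
  have hpp := Nat.prime_of_mem_primeFactors hp
  exact sigE_prime_pow hpp (hpp.factorization_pos_of_dvd hn (Nat.dvd_of_mem_primeFactors hp)).ne'

end Pool.Agent.EP364
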