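import Pool.Agent.Lib_MP_bed364_nt.Table

/-!
# MP_bed364_nt: the check of the table, part 1
-/

set_option autoImplicit false

namespace Pool.Agent.EP364

theorem g5_ok : chk5 g5 = true := by decide +kernel

theorem c7 : chk (7, 1, 1198372, 107773655719, 18151392672) = true := by decide +kernel
theorem c11 : chk (11, 2, 762600, 49280780317, 9463372318) = true := by decide +kernel
theorem c13 : chk (13, 1, 645277, 22574359862, 9958899393) = true := by decide +kernel
theorem c17 : chk (17, 2, 493447, 34865211036, 2129548675) = true := by decide +kernel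
theorem c19 : chk (19, 1, 441505, 61774257864, 3691149117) = true := by decide +kernel
theorem c23 : chk (23, 2, 364722, 16834718370, 4176916219) = true := by decide +kernel
theorem c29 : chk (29, 2, 289262, 6426147268, 3730792993) = true := by decide +kernel
theorem c31 : chk (31, 1, 270600, 26836141949, 4606590235) = true := by decide +kernel
theorem c37 : chk (37, 1, 226719, 20922649534, 1458072934) = true := by decide +kernel
theorem c41 : chk (41, 2, 204600, 14602830887, 1020199291) = true := by decide +kernel
theorem c43 : chk (43, 1, 195083, 5983669309, 3510415846) = true := by decide +kernel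
theorem c47 : chk (47, 2, 178481, 7270949921, 943967356) = true := by decide +kernel
theorem c53 : chk (53, 2, 158275, 11625990780, 2045663465) = true := by decide +kernel
theorem c59 : chk (59, 2, 142179, 4430935519, 1213685944) = true := by decide +kernel
theorem c61 : chk (61, 1, 137518, 6276511163, 2088329419) = true := by decide +kernel
theorem c67 : chk (67, 1, 125203, 3908858433, 2148663759) = true := by decide +kernel
theorem c71 : chk (71, 2, 118149, 8401765290, 1444257718) = true := by decide +kernel
theorem c73 : chk (73, 1, 114912, 4087317001, 1842201377) = true := by decide +kernel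
theorem c79 : chk (79, 1, 106184, 15485121594, 1011583369) = true := by decide +kernel
theorem c83 : chk (83, 2, 101067, 10870812298, 683609772) = true := by decide +kernel
theorem c89 : chk (89, 2, 94254, 3632665825, 861042445) = true := by decide +kernel
theorem c97 : chk (97, 1, 86480, 8314848993, 790943043) = true := by decide +kernel
theorem c101 : chk (101, 2, 83055, 4515369056, 750430748) = true := by decide +kernel
theorem c103 : chk (103, 1, 81442, 3672676695, 734310153) = true := by decide +kernel
theorem c107 : chk (107, 2, 78398, 3755454524, 647166199) = true := by decide +kernel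
theorem c109 : chk (109, 1, 76959, 3479266173, 480413826) = true := by decide +kernel
theorem c113 : chk (113, 2, 74235, 3137412915, 878143905) = true := by decide +kernel
theorem c127 : chk (127, 1, 66052, 2942891666, 1061041829) = true := by decide +kernel
theorem c131 : chk (131, 2, 64035, 3817453205, 452680535) = true := by decide +kernel
theorem c137 : chk (137, 2, 61230, 4945139157, 356490041) = true := by decide +kernel
theorem c139 : chk (139, 1, 60349, 6700479972, 301314154) = true := by decide +kernel

theorem tb1_ok : ∀ e ∈ tb1, chk e = true :=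
  List.forall_mem_cons.2 ⟨c7,
  List.forall_mem_cons.2 ⟨c11,
  List.forall_mem_cons.2 ⟨c13,
  List.forall_mem_cons.2 ⟨c17,
  List.forall_mem_cons.2 ⟨c19,
  List.forall_mem_cons.2 ⟨c23,
  List.forall_mem_cons.2 ⟨c29,
  List.forall_mem_cons.2 ⟨c31,
  List.forall_mem_cons.2 ⟨c37,
  List.forall_mem_cons.2 ⟨c41,
  List.forall_mem_cons.2 ⟨c43,
  List.forall_mem_cons.2 ⟨c47,
  List.forall_mem_cons.2 ⟨c53,
  List.forall_mem_cons.2 ⟨c59,
  List.forall_mem_cons.2 ⟨c61,
  List.forall_mem_cons.2 ⟨c67,
  List.forall_mem_cons.2 ⟨c71,
  List.forall_mem_cons.2 ⟨c73,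
  List.forall_mem_cons.2 ⟨c79,
  List.forall_mem_cons.2 ⟨c83,
  List.forall_mem_cons.2 ⟨c89,
  List.forall_mem_cons.2 ⟨c97,
  List.forall_mem_cons.2 ⟨c101,
  List.forall_mem_cons.2 ⟨c103,
  List.forall_mem_cons.2 ⟨c107,
  List.forall_mem_cons.2 ⟨c109,
  List.forall_mem_cons.2 ⟨c113,
  List.forall_mem_cons.2 ⟨c127,
  List.forall_mem_cons.2 ⟨c131,
  List.forall_mem_cons.2 ⟨c137,
  List.forall_mem_cons.2 ⟨c139,
  fun _ h => absurd h List.not_mem_nil⟩⟩⟩⟩⟩⟩⟩⟩⟩⟩⟩⟩⟩⟩⟩⟩⟩⟩⟩⟩⟩⟩⟩⟩⟩⟩⟩⟩⟩⟩⟩

end Pool.Agent.EP364
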