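import Pool.Agent.Lib_MP_bed364_nt.Table

/-!
# MP_bed364_nt: the check of the table, part 2
-/

set_option autoImplicit false

namespace Pool.Agent.EP364

theorem c149 : chk (149, 2, 56299, 2490515853, 558443639) = true := by decide +kernel
theorem c151 : chk (151, 1, 55553, 2707405520, 1005623184) = true := by decide +kernel
theorem c157 : chk (157, 1, 53430, 5425442839, 374808387) = true := by decide +kernel
theorem c163 : chk (163, 1, 51463, 2555171683, 1202941661) = true := by decide +kernel
theorem c167 : chk (167, 2, 50231, 3208087950, 429458063) = true := by decide +kernel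
theorem c173 : chk (173, 2, 48489, 4209295004, 388897231) = true := by decide +kernel
theorem c179 : chk (179, 2, 46863, 1921334156, 646352494) = true := by decide +kernel
theorem c181 : chk (181, 1, 46345, 2536782363, 462078470) = true := by decide +kernel
theorem c191 : chk (191, 2, 43919, 1620526568, 486984332) = true := by decide +kernel
theorem c193 : chk (193, 1, 43464, 2054545474, 328932311) = true := by decide +kernel
theorem c197 : chk (197, 2, 42581, 2732509198, 389204201) = true := by decide +kernel
theorem c199 : chk (199, 1, 42153, 4509299840, 324838214) = true := by decide +kernel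
theorem c211 : chk (211, 1, 39756, 4524151520, 588152231) = true := by decide +kernel
theorem c223 : chk (223, 1, 37617, 1777199115, 711735767) = true := by decide +kernel
theorem c227 : chk (227, 2, 36954, 3414242738, 355116999) = true := by decide +kernel
theorem c229 : chk (229, 1, 36631, 4318064390, 397843703) = true := by decide +kernel
theorem c233 : chk (233, 2, 36002, 1550986542, 240851387) = true := by decide +kernel
theorem c239 : chk (239, 2, 35098, 2029199755, 536389522) = true := by decide +kernel
theorem c241 : chk (241, 1, 34807, 1090771428, 584137330) = true := by decide +kernel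
theorem c251 : chk (251, 2, 33420, 1318548225, 465838212) = true := by decide +kernel
theorem c257 : chk (257, 2, 32640, 1679829521, 258692209) = true := by decide +kernel

theorem tb2_ok : ∀ e ∈ tb2, chk e = true :=
  List.forall_mem_cons.2 ⟨c149,
  List.forall_mem_cons.2 ⟨c151,
  List.forall_mem_cons.2 ⟨c157,
  List.forall_mem_cons.2 ⟨c163,
  List.forall_mem_cons.2 ⟨c167,
  List.forall_mem_cons.2 ⟨c173,
  List.forall_mem_cons.2 ⟨c179,
  List.forall_mem_cons.2 ⟨c181,
  List.forall_mem_cons.2 ⟨c191,
  List.forall_mem_cons.2 ⟨c193,
  List.forall_mem_cons.2 ⟨c197,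
  List.forall_mem_cons.2 ⟨c199,
  List.forall_mem_cons.2 ⟨c211,
  List.forall_mem_cons.2 ⟨c223,
  List.forall_mem_cons.2 ⟨c227,
  List.forall_mem_cons.2 ⟨c229,
  List.forall_mem_cons.2 ⟨c233,
  List.forall_mem_cons.2 ⟨c239,
  List.forall_mem_cons.2 ⟨c241,
  List.forall_mem_cons.2 ⟨c251,
  List.forall_mem_cons.2 ⟨c257,
  fun _ h => absurd h List.not_mem_nil⟩⟩⟩⟩⟩⟩⟩⟩⟩⟩⟩⟩⟩⟩⟩⟩⟩⟩⟩⟩⟩

end Pool.Agent.EP364
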