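import Pool.Agent.Lib_MP_bed364_nt.Table

/-!
# MP_bed364_nt: the check of the table, part 3
-/

set_option autoImplicit false

namespace Pool.Agent.EP364

theorem c263 : chk (263, 2, 31895, 2230688972, 156882576) = true := by decide +kernel
theorem c269 : chk (269, 2, 31184, 1544410010, 155591510) = true := by decide +kernel
theorem c271 : chk (271, 1, 30954, 3368236834, 546154558) = true := by decide +kernel
theorem c277 : chk (277, 1, 30283, 986995841, 655906076) = true := by decide +kernel
theorem c281 : chk (281, 2, 29852, 1973737685, 383935368) = true := by decide +kernel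
theorem c283 : chk (283, 1, 29641, 1415073879, 251577860) = true := by decide +kernel
theorem c293 : chk (293, 2, 28630, 2310473189, 273942238) = true := by decide +kernel
theorem c307 : chk (307, 1, 27324, 2727633448, 525723242) = true := by decide +kernel
theorem c311 : chk (311, 2, 26973, 1566729886, 290863007) = true := by decide +kernel
theorem c313 : chk (313, 1, 26800, 1271016697, 166429497) = true := by decide +kernel
theorem c317 : chk (317, 2, 26462, 1272572213, 231876286) = true := by decide +kernel
theorem c331 : chk (331, 1, 25343, 3889741727, 160869162) = true := by decide +kernel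
theorem c337 : chk (337, 1, 24892, 2632901365, 129747701) = true := by decide +kernel
theorem c347 : chk (347, 2, 24174, 1094406971, 162275026) = true := by decide +kernel
theorem c349 : chk (349, 1, 24036, 1401701992, 207582281) = true := by decide +kernel
theorem c353 : chk (353, 2, 23763, 1331150268, 336641589) = true := by decide +kernel
theorem c359 : chk (359, 2, 23366, 931026669, 140844916) = true := by decide +kernel
theorem c367 : chk (367, 1, 22857, 2290048342, 214081469) = true := by decide +kernel
theorem c373 : chk (373, 1, 22489, 1056182231, 179755127) = true := by decide +kernel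
theorem c379 : chk (379, 1, 22133, 2308269369, 127209964) = true := by decide +kernel
theorem c383 : chk (383, 2, 21902, 2057157360, 227905476) = true := by decide +kernel
theorem c389 : chk (389, 2, 21564, 972778082, 255734890) = true := by decide +kernel
theorem c397 : chk (397, 1, 21129, 990533731, 436989006) = true := by decide +kernel
theorem c401 : chk (401, 2, 20919, 771280466, 163538979) = true := by decide +kernel
theorem c409 : chk (409, 1, 20510, 1165516474, 131389632) = true := by decide +kernel

theorem tb3_ok : ∀ e ∈ tb3, chk e = true :=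
  List.forall_mem_cons.2 ⟨c263,
  List.forall_mem_cons.2 ⟨c269,
  List.forall_mem_cons.2 ⟨c271,
  List.forall_mem_cons.2 ⟨c277,
  List.forall_mem_cons.2 ⟨c281,
  List.forall_mem_cons.2 ⟨c283,
  List.forall_mem_cons.2 ⟨c293,
  List.forall_mem_cons.2 ⟨c307,
  List.forall_mem_cons.2 ⟨c311,
  List.forall_mem_cons.2 ⟨c313,
  List.forall_mem_cons.2 ⟨c317,
  List.forall_mem_cons.2 ⟨c331,
  List.forall_mem_cons.2 ⟨c337,
  List.forall_mem_cons.2 ⟨c347,
  List.forall_mem_cons.2 ⟨c349,
  List.forall_mem_cons.2 ⟨c353,
  List.forall_mem_cons.2 ⟨c359,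
  List.forall_mem_cons.2 ⟨c367,
  List.forall_mem_cons.2 ⟨c373,
  List.forall_mem_cons.2 ⟨c379,
  List.forall_mem_cons.2 ⟨c383,
  List.forall_mem_cons.2 ⟨c389,
  List.forall_mem_cons.2 ⟨c397,
  List.forall_mem_cons.2 ⟨c401,
  List.forall_mem_cons.2 ⟨c409,
  fun _ h => absurd h List.not_mem_nil⟩⟩⟩⟩⟩⟩⟩⟩⟩⟩⟩⟩⟩⟩⟩⟩⟩⟩⟩⟩⟩⟩⟩⟩⟩

end Pool.Agent.EP364
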