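import Pool.Agent.Lib_MP_bed364_nt.Table

/-!
# MP_bed364_nt: the check of the table, part 4
-/

set_option autoImplicit false

namespace Pool.Agent.EP364

theorem c419 : chk (419, 2, 20020, 960953484, 229290578) = true := by decide +kernel
theorem c421 : chk (421, 1, 19925, 892352354, 121206287) = true := by decide +kernel
theorem c431 : chk (431, 2, 19463, 1379959847, 187714446) = true := by decide +kernel
theorem c433 : chk (433, 1, 19373, 1164913167, 180603343) = true := by decide +kernel
theorem c439 : chk (439, 1, 19108, 2787525071, 113954941) = true := by decide +kernel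
theorem c443 : chk (443, 2, 18935, 702481033, 101610175) = true := by decide +kernel
theorem c449 : chk (449, 2, 18682, 634661888, 163754017) = true := by decide +kernel
theorem c457 : chk (457, 1, 18355, 667912983, 293362004) = true := by decide +kernel
theorem c461 : chk (461, 2, 18196, 773523094, 229061675) = true := by decide +kernel
theorem c463 : chk (463, 1, 18117, 669255777, 283414141) = true := by decide +kernel
theorem c467 : chk (467, 2, 17962, 1657722859, 136079754) = true := by decide +kernel
theorem c479 : chk (479, 2, 17512, 745921155, 265219847) = true := by decide +kernel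
theorem c487 : chk (487, 1, 17225, 827779723, 154382368) = true := by decide +kernel
theorem c491 : chk (491, 2, 17084, 889575303, 142309087) = true := by decide +kernel
theorem c499 : chk (499, 1, 16810, 2157905414, 136885662) = true := by decide +kernel
theorem c503 : chk (503, 2, 16677, 1319843858, 192237490) = true := by decide +kernel
theorem c509 : chk (509, 2, 16480, 645996475, 169169157) = true := by decide +kernel
theorem c521 : chk (521, 2, 16100, 1380279872, 162264516) = true := by decide +kernel
theorem c523 : chk (523, 1, 16039, 716946052, 294842263) = true := by decide +kernel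
theorem c541 : chk (541, 1, 15505, 768002355, 269297546) = true := by decide +kernel
theorem c547 : chk (547, 1, 15335, 1707922281, 165937831) = true := by decide +kernel
theorem c557 : chk (557, 2, 15060, 896399142, 108766904) = true := by decide +kernel
theorem c563 : chk (563, 2, 14899, 1184346752, 134352534) = true := by decide +kernel
theorem c569 : chk (569, 2, 14742, 880532265, 147921209) = true := by decide +kernel
theorem c571 : chk (571, 1, 14691, 812107876, 233791037) = true := by decide +kernel
theorem c577 : chk (577, 1, 14538, 1413964082, 96431843) = true := by decide +kernel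
theorem c587 : chk (587, 2, 14290, 1216642207, 98328202) = true := by decide +kernel
theorem c593 : chk (593, 2, 14146, 1030588904, 139769554) = true := by decide +kernel
theorem c599 : chk (599, 2, 14004, 613199408, 69140356) = true := by decide +kernel

theorem tb4_ok : ∀ e ∈ tb4, chk e = true :=
  List.forall_mem_cons.2 ⟨c419,
  List.forall_mem_cons.2 ⟨c421,
  List.forall_mem_cons.2 ⟨c431,
  List.forall_mem_cons.2 ⟨c433,
  List.forall_mem_cons.2 ⟨c439,
  List.forall_mem_cons.2 ⟨c443,
  List.forall_mem_cons.2 ⟨c449,
  List.forall_mem_cons.2 ⟨c457,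
  List.forall_mem_cons.2 ⟨c461,
  List.forall_mem_cons.2 ⟨c463,
  List.forall_mem_cons.2 ⟨c467,
  List.forall_mem_cons.2 ⟨c479,
  List.forall_mem_cons.2 ⟨c487,
  List.forall_mem_cons.2 ⟨c491,
  List.forall_mem_cons.2 ⟨c499,
  List.forall_mem_cons.2 ⟨c503,
  List.forall_mem_cons.2 ⟨c509,
  List.forall_mem_cons.2 ⟨c521,
  List.forall_mem_cons.2 ⟨c523,
  List.forall_mem_cons.2 ⟨c541,
  List.forall_mem_cons.2 ⟨c547,
  List.forall_mem_cons.2 ⟨c557,
  List.forall_mem_cons.2 ⟨c563,
  List.forall_mem_cons.2 ⟨c569,
  List.forall_mem_cons.2 ⟨c571,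
  List.forall_mem_cons.2 ⟨c577,
  List.forall_mem_cons.2 ⟨c587,
  List.forall_mem_cons.2 ⟨c593,
  List.forall_mem_cons.2 ⟨c599,
  fun _ h => absurd h List.not_mem_nil⟩⟩⟩⟩⟩⟩⟩⟩⟩⟩⟩⟩⟩⟩⟩⟩⟩⟩⟩⟩⟩⟩⟩⟩⟩⟩⟩⟩⟩

end Pool.Agent.EP364
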