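import Pool.Agent.Lib_MP_bed364_nt.Root
import Pool.Agent.Lib_MP_bed364_nt.Tab1
import Pool.Agent.Lib_MP_bed364_nt.Tab2
import Pool.Agent.Lib_MP_bed364_nt.Tab3
import Pool.Agent.Lib_MP_bed364_nt.Tab4

/-!
# MP_bed364_nt: the bound for the classes of the small roots
-/

set_option autoImplicit false

namespace Pool.Agent.EP364

open Finset

/-- the whole table -/
def TB : List (ℕ × ℕ × ℕ × ℕ × ℕ) := tb1 ++ (tb2 ++ (tb3 ++ tb4))

theorem TB_ok : ∀ e ∈ TB, chk e = true := by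
  intro e he
  unfold TB at he
  rcases List.mem_append.1 he with h | h
  · exact tb1_ok e h
  rcases List.mem_append.1 h with h | h
  · exact tb2_ok e h
  rcases List.mem_append.1 h with h | h
  · exact tb3_ok e h
  · exact tb4_ok e h

theorem TB_mem : ∀ t ∈ List.range 601, (Nat.ble 7 t && Nat.beq (Nat.gcd t 6) 1 && isP t) = true →
    (TB.any fun e => Nat.beq e.1 t && Nat.beq e.2.1 (t % 3) && Nat.beq e.2.2.1 (XH / t)) = true := by
  decide +kernel

theorem PL0_mem : ∀ t ∈ List.range 601, (Nat.beq t 3 || Nat.beq t 7 || !(Nat.beq t 2 || Nat.beq t 5 ||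
    (Nat.ble 7 t && Nat.beq (Nat.gcd t 6) 1 && isP t)) || PL0.contains t) = true := by
  decide +kernel

theorem PL7_mem : ∀ t ∈ List.range 601, (Nat.beq t 3 || !(Nat.beq t 2 || Nat.beq t 5 ||
    (Nat.ble 7 t && Nat.beq (Nat.gcd t 6) 1 && isP t)) || PL7.contains t) = true := by
  decide +kernel

theorem test_of_prime {t : ℕ} (ht : t.Prime) (h7 : 7 ≤ t) :
    (Nat.ble 7 t && Nat.beq (Nat.gcd t 6) 1 && isP t) = true := by
  have h1 : Nat.gcd t 6 = 1 := by
    rw [← Nat.coprime_iff_gcd_eq_one, ht.coprime_iff_not_dvd]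
    intro h
    have := Nat.le_of_dvd (by norm_num) h
    omega
  rw [ble_iff.2 h7, beq_iff.2 h1, isP_of_prime ht]
  rfl

theorem test_of_prime' {t : ℕ} (ht : t.Prime) (h3 : t ≠ 3) :
    (Nat.beq t 2 || Nat.beq t 5 || (Nat.ble 7 t && Nat.beq (Nat.gcd t 6) 1 && isP t)) = true := by
  rcases Nat.lt_or_ge t 7 with h | h
  · revert ht h3
    interval_cases t <;> norm_num
  · rw [test_of_prime ht h, Bool.or_true]

theorem PL0_of_prime {t : ℕ} (ht : t.Prime) (h : t < 601) (h3 : t ≠ 3) (h7 : t ≠ 7) : t ∈ PL0 := by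
  have h1 := PL0_mem t (List.mem_range.2 h)
  rw [test_of_prime' ht h3] at h1
  have h4 : Nat.beq t 3 = false := by
    rw [Bool.eq_false_iff]
    exact fun h5 => h3 (beq_iff.1 h5)
  have h6 : Nat.beq t 7 = false := by
    rw [Bool.eq_false_iff]
    exact fun h5 => h7 (beq_iff.1 h5)
  rw [h4, h6] at h1
  simpa using h1

theorem PL7_of_prime {t : ℕ} (ht : t.Prime) (h : t < 601) (h3 : t ≠ 3) : t ∈ PL7 := by
  have h1 := PL7_mem t (List.mem_range.2 h)
  rw [test_of_prime' ht h3] at h1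
  have h4 : Nat.beq t 3 = false := by
    rw [Bool.eq_false_iff]
    exact fun h5 => h3 (beq_iff.1 h5)
  rw [h4] at h1
  simpa using h1

theorem PL0_sorted : PL0.Pairwise (· ≤ ·) := by decide +kernel

theorem PL7_sorted : PL7.Pairwise (· ≤ ·) := by decide +kernel

theorem PL0_two : ∀ q ∈ PL0, 2 ≤ q := by decide +kernel

theorem PL7_two : ∀ q ∈ PL7, 2 ≤ q := by decide +kernel

theorem PL0_len : PL0.length + 24 ≤ 132 := by decide +kernel

theorem PL7_len : PL7.length + 24 ≤ 132 := by decide +kernel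

theorem exists_entry {t : ℕ} (ht : t.Prime) (h7 : 7 ≤ t) (h : t < 601) :
    ∃ e ∈ TB, e.1 = t ∧ e.2.1 = t % 3 ∧ e.2.2.1 = XH / t := by
  have h1 := TB_mem t (List.mem_range.2 h) (test_of_prime ht h7)
  obtain ⟨e, he, h2⟩ := List.any_eq_true.1 h1
  rw [Bool.and_eq_true, Bool.and_eq_true] at h2
  exact ⟨e, he, beq_iff.1 h2.1.1, beq_iff.1 h2.1.2, beq_iff.1 h2.2⟩

theorem hX_of {t p : ℕ} (ht : 0 < t) (hp : p + 1 ≤ 2 * XH) :
    p + 1 ≤ 2 * (t * (XH / t)) + (2 * t - 1) := by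
  have := Nat.div_add_mod XH t
  have h2 := Nat.mod_lt XH ht
  omega

theorem XH_lt (t : ℕ) : XH / t < 2 ^ 24 :=
  lt_of_le_of_lt (Nat.div_le_self _ _) (by decide)

/-- the class of `t` for `7 ≤ t < 601` -/
theorem class_tab {n t : ℕ} {R T U : Finset ℕ} (G : Good n R T) (ht : t ∈ T) (h7 : 7 ≤ t)
    (h6 : t < 601) (hUR : U ⊆ R) (hU : ∀ p ∈ U, Top t p) (hX : ∀ p ∈ U, p + 1 ≤ 2 * XH) :
    ∃ e ∈ TB, e.1 = t ∧ ∑ p ∈ U, Hz p ≤ e.2.2.2.1 + if 7 ∈ T then e.2.2.2.2 else 0 := by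
  classical
  obtain ⟨e, he, h1, h2, h3⟩ := exists_entry (G.primeT t ht) h7 h6
  have hc := TB_ok e he
  obtain ⟨t', r, B, g0, gm⟩ := e
  change t' = t at h1
  change r = t % 3 at h2
  change B = XH / t at h3
  subst h1 h2 h3
  change (Nat.ble (sm (leafT t' (t' % 3)) t' (XH / t') 132 PL0 1) g0 &&
    Nat.ble (sm (leafT t' (t' % 3)) t' (XH / t') 132 PL7 7) gm) = true at hc
  rw [Bool.and_eq_true] at hc
  refine ⟨_, he, rfl, ?_⟩
  change ∑ p ∈ U, Hz p ≤ g0 + if 7 ∈ T then gm else 0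
  have ht0 := (G.primeT t' ht).pos
  rw [← Finset.sum_filter_add_sum_filter_not U (fun p => ¬ 7 ∣ (p + 1) / (2 * t'))]
  refine add_le_add ?_ ?_
  · refine le_trans (class0 G ht (XH / t') PL0 PL0_sorted PL0_two (XH_lt t') PL0_len
      ((Finset.filter_subset _ _).trans hUR) (fun p hp => hU p (mem_filter.1 hp).1)
      (fun p hp => (mem_filter.1 hp).2) (fun p hp => hX_of ht0 (hX p (mem_filter.1 hp).1)) ?_)
      (ble_iff.1 hc.1)
    intro q hq hqt hq3 hq7
    exact PL0_of_prime hq (by omega) hq3 hq7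
  · by_cases h8 : 7 ∈ T
    · rw [if_pos h8]
      refine le_trans (class7 G ht (XH / t') PL7 PL7_sorted PL7_two (XH_lt t') PL7_len
        ((Finset.filter_subset _ _).trans hUR) (fun p hp => hU p (mem_filter.1 hp).1)
        (fun p hp => not_not.1 (mem_filter.1 hp).2)
        (fun p hp => hX_of ht0 (hX p (mem_filter.1 hp).1)) ?_) (ble_iff.1 hc.2)
      intro q hq hqt hq3
      exact PL7_of_prime hq (by omega) hq3
    · rw [if_neg h8, Nat.le_zero]
      refine Finset.sum_eq_zero fun p hp => ?_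
      exfalso
      obtain ⟨h9, h10⟩ := mem_filter.1 hp
      rw [not_not] at h10
      obtain ⟨j, hj, _, _⟩ := quot G (hUR h9) ht (hU p h9).1
      rw [quot_eq ht0 hj] at h10
      apply h8
      refine G.hit p (hUR h9) 7 (by norm_num) (by norm_num) ?_
      rw [hj]
      exact (h10.mul_left t').mul_left 2

/-- the class of `5` -/
theorem class_five {n : ℕ} {R T U : Finset ℕ} (G : Good n R T) (ht : 5 ∈ T)
    (hUR : U ⊆ R) (hU : ∀ p ∈ U, Top 5 p) (hX : ∀ p ∈ U, p + 1 ≤ 2 * XH)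
    (h19 : ∀ p ∈ U, p ≠ 19 ∧ p ≠ 79) : ∑ p ∈ U, Hz p ≤ g5 := by
  refine le_trans (sum_sm leafF 5 1 1677721 PL0 U (fun p => (p + 1) / (2 * 5)) le_rfl PL0_sorted
    PL0_two (by norm_num) PL0_len ?_ ?_) (ble_iff.1 g5_ok)
  · intro p hp p' hp' he
    obtain ⟨j, hj, _⟩ := quot G (hUR hp) ht (hU p hp).1
    obtain ⟨j', hj', _⟩ := quot G (hUR hp') ht (hU p' hp').1
    change (p + 1) / (2 * 5) = (p' + 1) / (2 * 5) at he
    rw [quot_eq (by norm_num) hj, quot_eq (by norm_num) hj'] at he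
    subst he
    omega
  · intro p hp
    obtain ⟨j, hj, hj3, hj0⟩ := quot G (hUR hp) ht (hU p hp).1
    rw [quot_eq (by norm_num) hj, one_mul]
    obtain ⟨h1, h2⟩ := h19 p hp
    refine ⟨?_, hj0, ?_, ?_⟩
    · have h3 : Nat.beq j 2 = false := by
        rw [Bool.eq_false_iff]
        intro h4
        have := beq_iff.1 h4
        omega
      have h4 : Nat.beq j 8 = false := by
        rw [Bool.eq_false_iff]
        intro h4
        have := beq_iff.1 h4
        omega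
      unfold leafF
      rw [h3, h4, Bool.or_false, cond_false]
      exact leafT_eq (G.prime p (hUR hp)) hj hj3
    · have h2 := hX p hp
      rw [hj, XH] at h2
      omega
    · intro q hq hqj
      have h2 : q ∣ p + 1 := by
        rw [hj]
        exact (hqj.mul_left 5).mul_left 2
      have h3 := (hU p hp).2 q hq h2
      refine ⟨h3, PL0_of_prime hq (by omega) ?_ (by omega)⟩
      rintro rfl
      have := G.mod p (hUR hp)
      omega

/-- the harmonic sum -/
def hs (d : ℕ) : ℕ → ℕ → ℕ :=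
  Nat.rec (fun s l => cond (Nat.beq l 0) 0 (Nat.succ (Nat.div SS (Nat.succ (Nat.mul 3 s)))))
    (fun _ ih s l => Nat.add (ih s (Nat.div l 2))
      (ih (Nat.add s (Nat.div l 2)) (Nat.sub l (Nat.div l 2)))) d

theorem hs_ge : ∀ (d s l : ℕ), l ≤ 2 ^ d →
    ∑ i ∈ Finset.range l, (SS / (3 * (s + i) + 1) + 1) ≤ hs d s l := by
  intro d
  induction d with
  | zero =>
    intro s l hl
    change _ ≤ cond (Nat.beq l 0) 0 (Nat.succ (Nat.div SS (Nat.succ (Nat.mul 3 s))))
    have : l = 0 ∨ l = 1 := by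
      rw [pow_zero] at hl
      omega
    rcases this with rfl | rfl
    · simp
    · rw [Finset.sum_range_one, add_zero]
      exact le_rfl
  | succ d ih =>
    intro s l hl
    change _ ≤ hs d s (l / 2) + hs d (s + l / 2) (l - l / 2)
    rw [pow_succ] at hl
    have h1 := ih s (l / 2) (by omega)
    have h2 := ih (s + l / 2) (l - l / 2) (by omega)
    have h3 : l = l / 2 + (l - l / 2) := by omega
    calc ∑ i ∈ Finset.range l, (SS / (3 * (s + i) + 1) + 1)
        = ∑ i ∈ Finset.range (l / 2 + (l - l / 2)), (SS / (3 * (s + i) + 1) + 1) := by rw [← h3]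
      _ = ∑ i ∈ Finset.range (l / 2), (SS / (3 * (s + i) + 1) + 1) +
          ∑ i ∈ Finset.range (l - l / 2), (SS / (3 * (s + (l / 2 + i)) + 1) + 1) :=
          Finset.sum_range_add _ _ _
      _ ≤ hs d s (l / 2) + hs d (s + l / 2) (l - l / 2) := by
          refine add_le_add h1 (le_trans (le_of_eq ?_) h2)
          refine Finset.sum_congr rfl fun i _ => ?_
          rw [add_assoc s (l / 2) i]

theorem hs_val : Nat.ble (hs 13 0 4653) 3859200000000 = true := by decide +kernel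

theorem harm {N : ℕ} (hN : N ≤ 2 ^ 13) (h : Nat.ble (hs 13 0 N) 3859200000000 = true) :
    (SS : ℝ) * ∑ i ∈ Finset.range N, (1 / (3 * (i : ℝ) + 1)) ≤ 3859200000000 := by
  have h4 : ∑ i ∈ Finset.range N, (SS / (3 * (0 + i) + 1) + 1) ≤ 3859200000000 :=
    (hs_ge 13 0 N hN).trans (ble_iff.1 h)
  have h5 : ((∑ i ∈ Finset.range N, (SS / (3 * (0 + i) + 1) + 1) : ℕ) : ℝ) ≤ 3859200000000 := by
    exact_mod_cast h4
  refine le_trans ?_ h5
  rw [Nat.cast_sum, Finset.mul_sum]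
  refine Finset.sum_le_sum fun i _ => ?_
  have h6 := div_succ_ge SS (3 * (0 + i) + 1) (by omega)
  refine le_trans (le_of_eq ?_) h6
  push_cast
  rw [zero_add, mul_one_div]

/-- the class of `t` for `t ≥ 601` -/
theorem class_big {n t : ℕ} {R T U : Finset ℕ} (G : Good n R T) (ht : t ∈ T) (h6 : 601 ≤ t)
    (hUR : U ⊆ R) (hU : ∀ p ∈ U, Top t p) (hX : ∀ p ∈ U, p + 1 ≤ 2 * XH) :
    (SS : ℝ) * ∑ p ∈ U, (ww p + pr T p) ≤ 6432000000 := by
  classical
  obtain ⟨N, hN1, hN2⟩ : ∃ N : ℕ, N = 4653 ∧ Nat.ble (hs 13 0 N) 3859200000000 = true :=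
    ⟨4653, rfl, hs_val⟩
  have ht0 := (G.primeT t ht).pos
  have ht' : (601 : ℝ) ≤ t := by exact_mod_cast h6
  have key : ∀ p ∈ U, ∃ j, p + 1 = 2 * (t * j) ∧ j % 3 = t % 3 ∧ j ≠ 0 ∧ j ≤ 13957 ∧
      (p + 1) / (2 * t) = j := by
    intro p hp
    obtain ⟨j, hj, hj3, hj0⟩ := quot G (hUR hp) ht (hU p hp).1
    refine ⟨j, hj, hj3, hj0, ?_, quot_eq ht0 hj⟩
    have h1 := hX p hp
    rw [hj, XH] at h1
    by_contra h2
    have h3 : 601 * 13958 ≤ t * j := Nat.mul_le_mul h6 (by omega)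
    omega
  have ht3 : t % 3 ≠ 0 := by
    intro h3
    have := (Nat.prime_dvd_prime_iff_eq Nat.prime_three (G.primeT t ht)).1
      (Nat.dvd_of_mod_eq_zero h3)
    omega
  have h1 : ∀ p ∈ U, (ww p + pr T p) ≤ (1 / 600) * (1 / (3 * (((p + 1) / (2 * t) / 3 : ℕ) : ℝ) + 1)) := by
    intro p hp
    obtain ⟨j, hj, hj3, hj0, hj1, hj2⟩ := key p hp
    rw [hj2]
    have hp5 : 3 ≤ p := by
      have h2 : 601 * 1 ≤ t * j := Nat.mul_le_mul h6 (by omega)
      omega
    have h2 : ww p + pr T p ≤ 2 / ((p : ℝ) - 1) :=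
      (add_le_add_right (pr_le T p) _).trans (two_step hp5)
    refine h2.trans ?_
    have h3 : (p : ℝ) + 1 = 2 * (t * j) := by exact_mod_cast hj
    have h4 : 3 * ((j / 3 : ℕ) : ℝ) + 1 ≤ j := by
      have : 3 * (j / 3) + 1 ≤ j := by omega
      exact_mod_cast this
    have h5 : (1 : ℝ) ≤ j := by
      have : 1 ≤ j := by omega
      exact_mod_cast this
    have h7 : (0 : ℝ) ≤ ((j / 3 : ℕ) : ℝ) := Nat.cast_nonneg _
    have h8 : (p : ℝ) - 1 = 2 * (t * j - 1) := by linarith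
    have h9 : 600 * (j : ℝ) ≤ t * j - 1 := by nlinarith
    have h10 : (0 : ℝ) < 600 * j := by linarith
    rw [h8]
    calc 2 / (2 * ((t : ℝ) * j - 1)) = 1 / ((t : ℝ) * j - 1) := by
          rw [mul_comm, ← div_div, div_right_comm]
          norm_num
      _ ≤ 1 / (600 * (j : ℝ)) := one_div_le_one_div_of_le h10 h9
      _ ≤ 1 / (600 * (3 * ((j / 3 : ℕ) : ℝ) + 1)) :=
          one_div_le_one_div_of_le (by linarith) (by linarith)
      _ = (1 / 600) * (1 / (3 * ((j / 3 : ℕ) : ℝ) + 1)) := by rw [one_div_mul_one_div]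
  have hinj : Set.InjOn (fun p => (p + 1) / (2 * t) / 3) U := by
    intro p hp p' hp' he
    obtain ⟨j, hj, hj3, hj0, hj1, hj2⟩ := key p hp
    obtain ⟨j', hj', hj3', hj0', hj1', hj2'⟩ := key p' hp'
    change (p + 1) / (2 * t) / 3 = (p' + 1) / (2 * t) / 3 at he
    rw [hj2, hj2'] at he
    have : j = j' := by omega
    subst this
    omega
  have h2 : ∑ p ∈ U, (ww p + pr T p) ≤
      (1 / 600) * ∑ i ∈ Finset.range N, (1 / (3 * (i : ℝ) + 1)) := by
    calc ∑ p ∈ U, (ww p + pr T p)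
        ≤ ∑ p ∈ U, (1 / 600) * (1 / (3 * (((p + 1) / (2 * t) / 3 : ℕ) : ℝ) + 1)) :=
          Finset.sum_le_sum h1
      _ = ∑ i ∈ U.image (fun p => (p + 1) / (2 * t) / 3), (1 / 600) * (1 / (3 * (i : ℝ) + 1)) := by
          rw [Finset.sum_image hinj]
      _ ≤ ∑ i ∈ Finset.range N, (1 / 600) * (1 / (3 * (i : ℝ) + 1)) := by
          refine Finset.sum_le_sum_of_subset_of_nonneg ?_ ?_
          · intro i hi
            obtain ⟨p, hp, rfl⟩ := Finset.mem_image.1 hi
            obtain ⟨j, hj, hj3, hj0, hj1, hj2⟩ := key p hp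
            change (p + 1) / (2 * t) / 3 ∈ _
            rw [mem_range, hj2]
            omega
          · intro i _ _
            positivity
      _ = (1 / 600) * ∑ i ∈ Finset.range N, (1 / (3 * (i : ℝ) + 1)) := by
          rw [Finset.mul_sum]
  have h3 := harm (by omega) hN2
  have hS : (0 : ℝ) ≤ (SS : ℝ) := Nat.cast_nonneg _
  have h4 := mul_le_mul_of_nonneg_left h2 hS
  linarith

end Pool.Agent.EP364
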