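import Mathlib

/-!
# MP_bed364_nt: the computable functions of the numerical bounds

All weights are scaled by `SS = 10^12`.
-/

set_option autoImplicit false

namespace Pool.Agent.EP364

/-- the scale -/
def SS : ℕ := 1000000000000

/-- the product of the primes up to `283` -/
def MM : ℕ :=
  6975357535853769564018389183934484833544679824821000822079731605785973739106144495802573231793827147966964944839451970

/-- a superset of the primes -/
def isP (p : ℕ) : Bool :=
  cond (Nat.ble p 288) (or (Nat.ble p 13) (Nat.beq (Nat.gcd p 30030) 1))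
    (Nat.beq (Nat.gcd p MM) 1)

/-- upper bound of `SS * log (1 + 1/p)` -/
def Wz (p : ℕ) : ℕ :=
  Nat.succ (Nat.div (Nat.mul SS (Nat.succ (Nat.mul 2 p))) (Nat.mul 2 (Nat.mul p (Nat.succ p))))

/-- maximum -/
def mx (a b : ℕ) : ℕ := cond (Nat.ble a b) b a

/-- upper bound of `SS * Mr d q` -/
def Mz (d : ℕ) : ℕ → ℕ :=
  Nat.rec (fun q => Nat.succ (Nat.div SS (Nat.sub q 1)))
    (fun _ ih q => mx (Nat.succ (Nat.div SS (Nat.sub (Nat.mul 7 q) 1)))
      (mx (cond (isP (Nat.sub (Nat.mul 2 q) 1))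
          (Nat.add (Wz (Nat.sub (Nat.mul 2 q) 1)) (ih (Nat.sub (Nat.mul 2 q) 1))) 0)
        (cond (isP (Nat.sub (Nat.mul 8 q) 1))
          (Nat.add (Wz (Nat.sub (Nat.mul 8 q) 1)) (ih (Nat.sub (Nat.mul 8 q) 1))) 0))) d

/-- the weight of a root -/
def Hz (p : ℕ) : ℕ := Nat.add (Wz p) (Mz 4 p)

/-- the weight of `2 t j - 1` if `j` has the residue `r` modulo `3` -/
def leafT (t r j : ℕ) : ℕ :=
  cond (Nat.beq (Nat.mod j 3) r)
    (cond (isP (Nat.sub (Nat.mul 2 (Nat.mul t j)) 1)) (Hz (Nat.sub (Nat.mul 2 (Nat.mul t j)) 1)) 0) 0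

/-- the case `t = 5` without the primes `19` and `79` -/
def leafF (j : ℕ) : ℕ := cond (or (Nat.beq j 2) (Nat.beq j 8)) 0 (leafT 5 2 j)

/-- the sum of `f (m j)` over the `j` with `m j ≤ B` whose prime factors are `≤ t` and in `L` -/
def sm (f : ℕ → ℕ) (t B d : ℕ) : List ℕ → ℕ → ℕ :=
  Nat.rec (fun _ m => f m)
    (fun _ ih L m => List.rec (f m)
      (fun q L' _ => cond (and (Nat.ble q t) (Nat.ble (Nat.mul m q) B))
        (Nat.add (ih L' m) (ih (q :: L') (Nat.mul m q))) (f m)) L) d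

end Pool.Agent.EP364
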