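import Mathlib

/-!
# MP_bed364_nt: the potential argument

`A` is a finite set of primes `≡ 1 mod 3` such that every `q ∈ A` divides `p + 1` for at most one `p ∈ A`. Every `q ∈ A` pays the
price `pr T q` to this `p`; what remains are the roots, the `p ∈ A` for which `p + 1` has no prime factor in `A`.
-/

set_option autoImplicit false

namespace Pool.Agent.EP364

open Finset

/-- the weight of `p` -/
noncomputable def ww (p : ℕ) : ℝ := Real.log (1 + 1 / (p : ℝ))

/-- the price of `q` (an upper bound of the total weight of a chain starting after `q`) -/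
noncomputable def Mr : ℕ → ℕ → ℝ
  | 0, q => 1 / ((q : ℝ) - 1)
  | d + 1, q => max (1 / (7 * (q : ℝ) - 1))
      (max (if (2 * q - 1).Prime then ww (2 * q - 1) + Mr d (2 * q - 1) else 0)
        (if (8 * q - 1).Prime then ww (8 * q - 1) + Mr d (8 * q - 1) else 0))

theorem ww_nonneg (p : ℕ) : 0 ≤ ww p := by
  unfold ww
  refine Real.log_nonneg ?_
  have : (0 : ℝ) ≤ 1 / (p : ℝ) := by positivity
  linarith

theorem ww_le {p : ℕ} (hp : 1 ≤ p) : ww p ≤ 1 / (p : ℝ) := by
  unfold ww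
  have h : (0 : ℝ) < p := by exact_mod_cast hp
  have h2 : (0 : ℝ) < 1 + 1 / (p : ℝ) := by positivity
  have := Real.log_le_sub_one_of_pos h2
  linarith

theorem le_ww {p : ℕ} (hp : 1 ≤ p) : 1 / ((p : ℝ) + 1) ≤ ww p := by
  unfold ww
  have h : (0 : ℝ) < p := by exact_mod_cast hp
  have h2 : (0 : ℝ) < 1 + 1 / (p : ℝ) := by positivity
  have h3 := Real.one_sub_inv_le_log_of_pos h2
  have h4 : 1 - (1 + 1 / (p : ℝ))⁻¹ = 1 / ((p : ℝ) + 1) := by
    field_simp
    ring
  rw [← h4]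
  exact h3

theorem Mr_nonneg : ∀ (d : ℕ) {q : ℕ}, 2 ≤ q → 0 ≤ Mr d q := by
  intro d
  cases d with
  | zero =>
    intro q hq
    have h : (2 : ℝ) ≤ q := by exact_mod_cast hq
    change (0 : ℝ) ≤ 1 / ((q : ℝ) - 1)
    exact div_nonneg zero_le_one (by linarith)
  | succ d =>
    intro q hq
    have h : (2 : ℝ) ≤ q := by exact_mod_cast hq
    rw [Mr]
    exact le_max_of_le_left (div_nonneg zero_le_one (by linarith))

theorem Mr_le : ∀ (d : ℕ) {q : ℕ}, 2 ≤ q → Mr d q ≤ 1 / ((q : ℝ) - 1) := by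
  intro d
  induction d with
  | zero => intro q _; exact le_rfl
  | succ d ih =>
    intro q hq
    have h : (2 : ℝ) ≤ q := by exact_mod_cast hq
    have hq1 : (0 : ℝ) < (q : ℝ) - 1 := by linarith
    have key : ∀ a : ℕ, 2 ≤ a → ww (a * q - 1) + Mr d (a * q - 1) ≤ 1 / ((q : ℝ) - 1) := by
      intro a ha
      have ha' : (2 : ℝ) ≤ a := by exact_mod_cast ha
      have h4 : 4 ≤ a * q := Nat.mul_le_mul ha hq
      have hc : ((a * q - 1 : ℕ) : ℝ) = (a : ℝ) * q - 1 := by
        rw [Nat.cast_sub (by omega)]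
        push_cast
        ring
      have h1 := ww_le (p := a * q - 1) (by omega)
      have h2 := ih (q := a * q - 1) (by omega)
      rw [hc] at h1 h2
      have haq : (2 : ℝ) * q ≤ a * q := mul_le_mul_of_nonneg_right ha' (by linarith)
      have h3 : 1 / ((a : ℝ) * q - 1) ≤ 1 / (2 * ((q : ℝ) - 1)) :=
        one_div_le_one_div_of_le (by linarith) (by linarith)
      have h5 : 1 / ((a : ℝ) * q - 1 - 1) ≤ 1 / (2 * ((q : ℝ) - 1)) :=
        one_div_le_one_div_of_le (by linarith) (by linarith)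
      have h6 : 1 / (2 * ((q : ℝ) - 1)) + 1 / (2 * ((q : ℝ) - 1)) = 1 / ((q : ℝ) - 1) := by
        field_simp
        norm_num
      linarith
    have hpos : (0 : ℝ) ≤ 1 / ((q : ℝ) - 1) := (div_pos one_pos hq1).le
    rw [Mr]
    refine max_le ?_ (max_le ?_ ?_)
    · exact one_div_le_one_div_of_le hq1 (by linarith)
    · split_ifs
      · exact key 2 le_rfl
      · exact hpos
    · split_ifs
      · exact key 8 (by norm_num)
      · exact hpos

theorem Mr_anti : ∀ (d : ℕ) {q : ℕ}, 2 ≤ q → Mr (d + 1) q ≤ Mr d q := by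
  intro d
  induction d with
  | zero => intro q hq; exact Mr_le 1 hq
  | succ d ih =>
    intro q hq
    rw [Mr.eq_def (d + 1 + 1) q, Mr.eq_def (d + 1) q]
    refine max_le_max le_rfl (max_le_max ?_ ?_)
    · split_ifs
      · have := ih (q := 2 * q - 1) (by omega)
        linarith
      · exact le_rfl
    · split_ifs
      · have := ih (q := 8 * q - 1) (by omega)
        linarith
      · exact le_rfl

theorem two_step {d p : ℕ} (hp : 3 ≤ p) : ww p + Mr d p ≤ 2 / ((p : ℝ) - 1) := by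
  have h : (3 : ℝ) ≤ p := by exact_mod_cast hp
  have h1 := ww_le (p := p) (by omega)
  have h2 := Mr_le d (q := p) (by omega)
  have h3 : 1 / (p : ℝ) ≤ 1 / ((p : ℝ) - 1) := one_div_le_one_div_of_le (by linarith) (by linarith)
  have h4 : 2 / ((p : ℝ) - 1) = 1 / ((p : ℝ) - 1) + 1 / ((p : ℝ) - 1) := by ring
  linarith

/-- the quotient `(p + 1) / (2 q)` -/
theorem exists_quot {p q : ℕ} (hp : p.Prime) (hp3 : p % 3 = 1) (hq : q.Prime) (hq3 : q % 3 = 1)
    (h : q ∣ p + 1) : ∃ j, p + 1 = 2 * q * j ∧ j % 3 = 1 := by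
  have hq2 : q ≠ 2 := by rintro rfl; norm_num at hq3
  have hp2 : p ≠ 2 := by rintro rfl; norm_num at hp3
  have hodd : p % 2 = 1 := (hp.eq_two_or_odd).resolve_left hp2
  have h2 : 2 ∣ p + 1 := by omega
  have hcop : Nat.Coprime 2 q := by
    rw [Nat.coprime_primes Nat.prime_two hq]
    exact fun h => hq2 h.symm
  obtain ⟨j, hj⟩ := hcop.mul_dvd_of_dvd_of_dvd h2 h
  refine ⟨j, hj, ?_⟩
  have h3 : (2 * q * j) % 3 = 2 := by rw [← hj]; omega
  have h4 : (2 * q * j) % 3 = (2 * j) % 3 := by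
    rw [Nat.mul_assoc, Nat.mul_mod 2 (q * j) 3, Nat.mul_mod q j 3, hq3]
    rw [Nat.mul_mod 2 j 3]
    simp
  omega

theorem step {d p q : ℕ} (hp : p.Prime) (hp3 : p % 3 = 1) (hq : q.Prime) (hq3 : q % 3 = 1)
    (h : q ∣ p + 1) : ww p + Mr (d + 1) p ≤ Mr (d + 1) q := by
  obtain ⟨j, hj, hj3⟩ := exists_quot hp hp3 hq hq3 h
  have hq2 := hq.two_le
  have hp2 := hp.two_le
  have hanti := Mr_anti d (q := p) hp2
  by_cases h1 : j = 1
  · have h2 : p = 2 * q - 1 := by subst h1; omega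
    rw [Mr.eq_def (d + 1) q]
    refine le_max_of_le_right (le_max_of_le_left ?_)
    rw [← h2, if_pos hp]
    linarith
  by_cases h4 : j = 4
  · have h2 : p = 8 * q - 1 := by subst h4; omega
    rw [Mr.eq_def (d + 1) q]
    refine le_max_of_le_right (le_max_of_le_right ?_)
    rw [← h2, if_pos hp]
    linarith
  have h7 : 7 ≤ j := by omega
  have hp3' : 3 ≤ p := by omega
  refine (two_step hp3').trans ?_
  rw [Mr.eq_def (d + 1) q]
  refine le_max_of_le_left ?_
  have hc : (p : ℝ) + 1 = 2 * q * j := by exact_mod_cast hj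
  have hq' : (2 : ℝ) ≤ q := by exact_mod_cast hq2
  have hj' : (7 : ℝ) ≤ j := by exact_mod_cast h7
  have h8 : (p : ℝ) - 1 = 2 * ((q : ℝ) * j - 1) := by linarith
  have h9 : (q : ℝ) * 7 ≤ q * j := mul_le_mul_of_nonneg_left hj' (by linarith)
  rw [h8, div_le_div_iff₀ (by linarith) (by linarith)]
  linarith

theorem prime37 : Nat.Prime 37 := by norm_num

theorem Mr19 (d : ℕ) : 1 / 75 ≤ Mr (d + 1) 19 := by
  rw [Mr]
  refine le_max_of_le_right (le_max_of_le_left ?_)
  have h1 : 2 * 19 - 1 = 37 := by norm_num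
  rw [h1, if_pos prime37]
  have h2 := le_ww (p := 37) (by norm_num)
  have h3 := Mr_nonneg d (q := 37) (by norm_num)
  norm_num at h2 ⊢
  linarith

theorem Mr7 (d : ℕ) : 1 / 48 ≤ Mr (d + 1) 7 := by
  rw [Mr]
  refine le_max_of_le_left ?_
  norm_num

/-- the price of `q` if the primes of `T` are excluded -/
noncomputable def pr (T : Finset ℕ) (q : ℕ) : ℝ :=
  if q = 7 ∧ 13 ∈ T then 1 / 48 else if q = 19 ∧ 37 ∈ T then 1 / 75 else Mr 4 q

theorem pr_le (T : Finset ℕ) (q : ℕ) : pr T q ≤ Mr 4 q := by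
  unfold pr
  split_ifs with h1 h2
  · rw [h1.1]
    exact Mr7 3
  · rw [h2.1]
    exact Mr19 3
  · exact le_rfl

theorem pr_nonneg (T : Finset ℕ) {q : ℕ} (hq : 2 ≤ q) : 0 ≤ pr T q := by
  unfold pr
  split_ifs
  · norm_num
  · norm_num
  · exact Mr_nonneg 4 hq

theorem step_pr (T : Finset ℕ) {p q : ℕ} (hp : p.Prime) (hp3 : p % 3 = 1) (hpT : p ∉ T)
    (hq : q.Prime) (hq3 : q % 3 = 1) (h : q ∣ p + 1) : ww p + pr T p ≤ pr T q := by
  have h0 := pr_le T p
  unfold pr at h0 ⊢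
  by_cases h1 : q = 7 ∧ 13 ∈ T
  · rw [if_pos h1]
    obtain ⟨rfl, h13⟩ := h1
    obtain ⟨j, hj, hj3⟩ := exists_quot hp hp3 hq hq3 h
    have hj1 : j ≠ 1 := by
      rintro rfl
      apply hpT
      have : p = 13 := by omega
      rw [this]
      exact h13
    have hj4 : j ≠ 4 := by
      rintro rfl
      have : p = 55 := by omega
      rw [this] at hp
      norm_num at hp
    have h97 : 97 ≤ p := by omega
    have h2 := two_step (d := 4) (p := p) (by omega)
    have h3 : (97 : ℝ) ≤ p := by exact_mod_cast h97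
    have h4 : 2 / ((p : ℝ) - 1) ≤ 1 / 48 := by
      rw [div_le_div_iff₀ (by linarith) (by norm_num)]
      linarith
    linarith
  rw [if_neg h1]
  by_cases h2 : q = 19 ∧ 37 ∈ T
  · rw [if_pos h2]
    obtain ⟨rfl, h37⟩ := h2
    obtain ⟨j, hj, hj3⟩ := exists_quot hp hp3 hq hq3 h
    have hj1 : j ≠ 1 := by
      rintro rfl
      apply hpT
      have : p = 37 := by omega
      rw [this]
      exact h37
    have h151 : 151 ≤ p := by omega
    have h2 := two_step (d := 4) (p := p) (by omega)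
    have h3 : (151 : ℝ) ≤ p := by exact_mod_cast h151
    have h4 : 2 / ((p : ℝ) - 1) ≤ 1 / 75 := by
      rw [div_le_div_iff₀ (by linarith) (by norm_num)]
      linarith
    linarith
  rw [if_neg h2]
  have h3 := step (d := 3) hp hp3 hq hq3 h
  linarith

/-- the potential argument -/
theorem pot (A T : Finset ℕ) (hA : ∀ p ∈ A, p.Prime ∧ p % 3 = 1) (hT : ∀ p ∈ A, p ∉ T)
    (hit : ∀ q ∈ A, (A.filter fun p => q ∣ p + 1).card ≤ 1) :
    ∑ p ∈ A, ww p ≤ ∑ p ∈ A.filter (fun p => ∀ q ∈ A, ¬ q ∣ p + 1), (ww p + pr T p) := by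
  classical
  rw [← Finset.sum_filter_add_sum_filter_not A (fun p => ∀ q ∈ A, ¬ q ∣ p + 1) ww]
  rw [Finset.sum_add_distrib]
  refine add_le_add le_rfl ?_
  -- the nonroots
  have hex : ∀ p ∈ A.filter (fun p => ¬ ∀ q ∈ A, ¬ q ∣ p + 1), ∃ q, q ∈ A ∧ q ∣ p + 1 := by
    intro p hp
    rw [mem_filter] at hp
    push Not at hp
    exact hp.2
  choose! f hf using hex
  have hinj : Set.InjOn f (A.filter (fun p => ¬ ∀ q ∈ A, ¬ q ∣ p + 1) : Finset ℕ) := by
    intro p hp p' hp' h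
    have h1 := hf p hp
    have h2 := hf p' hp'
    rw [← h] at h2
    have h3 := hit (f p) h1.1
    rw [Finset.card_le_one] at h3
    exact h3 p (mem_filter.2 ⟨(mem_filter.1 hp).1, h1.2⟩) p' (mem_filter.2 ⟨(mem_filter.1 hp').1, h2.2⟩)
  have h1 : ∑ p ∈ A.filter (fun p => ¬ ∀ q ∈ A, ¬ q ∣ p + 1), (ww p + pr T p) ≤
      ∑ p ∈ A.filter (fun p => ¬ ∀ q ∈ A, ¬ q ∣ p + 1), pr T (f p) := by
    refine Finset.sum_le_sum fun p hp => ?_
    have h2 := hf p hp
    have h3 := hA p (mem_filter.1 hp).1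
    have h4 := hA (f p) h2.1
    exact step_pr T h3.1 h3.2 (hT p (mem_filter.1 hp).1) h4.1 h4.2 h2.2
  have h2 : ∑ p ∈ A.filter (fun p => ¬ ∀ q ∈ A, ¬ q ∣ p + 1), pr T (f p) ≤ ∑ q ∈ A, pr T q := by
    rw [← Finset.sum_image (f := fun q => pr T q) hinj]
    refine Finset.sum_le_sum_of_subset_of_nonneg ?_ ?_
    · intro q hq
      obtain ⟨p, hp, rfl⟩ := Finset.mem_image.1 hq
      exact (hf p hp).1
    · intro q hq _
      exact pr_nonneg T (hA q hq).1.two_le
  have h3 := Finset.sum_filter_add_sum_filter_not A (fun p => ∀ q ∈ A, ¬ q ∣ p + 1) (pr T)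
  rw [Finset.sum_add_distrib] at h1
  linarith

end Pool.Agent.EP364
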