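import Pool.Agent.Lib_MP_bed364_nt.Base
import Pool.Agent.Lib_MP_bed364_nt.Pot

/-!
# MP_bed364_nt: the divisibility facts and the logarithmic identity
-/

set_option autoImplicit false

namespace Pool.Agent.EP364

open Finset

/-- the odd primes which divide `n` exactly twice -/
def AA (n : ℕ) : Finset ℕ := n.primeFactors.filter fun p => p ≠ 2 ∧ n.factorization p = 2

/-- the odd primes whose cube divides `n` -/
def TT (n : ℕ) : Finset ℕ := n.primeFactors.filter fun p => p ≠ 2 ∧ 3 ≤ n.factorization p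

theorem sE_two (p : ℕ) : sE p 2 = p * (p + 1) := by
  unfold sE
  have h : (2 : ℕ).divisors = {1, 2} := by decide
  rw [h, sum_pair (by norm_num)]
  ring

theorem dvd_sE (p a : ℕ) : p ∣ sE p a := by
  unfold sE
  refine Finset.dvd_sum fun b hb => ?_
  exact dvd_pow_self p (Nat.pos_of_mem_divisors hb).ne'

theorem sE_pos {p a : ℕ} (hp : 0 < p) (ha : a ≠ 0) : 0 < sE p a := by
  unfold sE
  refine Finset.sum_pos (fun b _ => pow_pos hp b) ⟨a, ?_⟩
  rw [Nat.mem_divisors]
  exact ⟨dvd_rfl, ha⟩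

theorem key_dvd {n : ℕ} (hn : n ≠ 0) (h : sigE n = 2 * n) :
    (∏ p ∈ n.primeFactors, p) * ∏ p ∈ AA n, (p + 1) ∣ 2 * n := by
  rw [← h, sigE_eq hn, AA, prod_filter, ← prod_mul_distrib]
  refine Finset.prod_dvd_prod_of_dvd _ _ fun p _ => ?_
  split_ifs with h1
  · rw [h1.2, sE_two]
  · rw [mul_one]
    exact dvd_sE _ _

theorem mem_AA {n p : ℕ} : p ∈ AA n ↔ p.Prime ∧ p ≠ 2 ∧ n.factorization p = 2 := by
  unfold AA
  rw [mem_filter]
  constructor
  · rintro ⟨h1, h2⟩
    exact ⟨Nat.prime_of_mem_primeFactors h1, h2⟩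
  · rintro ⟨h1, h2, h3⟩
    refine ⟨?_, h2, h3⟩
    rw [← Nat.support_factorization, Finsupp.mem_support_iff, h3]
    norm_num

theorem mem_TT {n p : ℕ} : p ∈ TT n ↔ p.Prime ∧ p ≠ 2 ∧ 3 ≤ n.factorization p := by
  unfold TT
  rw [mem_filter]
  constructor
  · rintro ⟨h1, h2⟩
    exact ⟨Nat.prime_of_mem_primeFactors h1, h2⟩
  · rintro ⟨h1, h2, h3⟩
    refine ⟨?_, h2, h3⟩
    rw [← Nat.support_factorization, Finsupp.mem_support_iff]
    omega

theorem fact_prod {n q : ℕ} (hn : n ≠ 0) (h : sigE n = 2 * n) :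
    (if q ∈ n.primeFactors then 1 else 0) + ∑ p ∈ AA n, (p + 1).factorization q ≤
      (2 * n).factorization q := by
  have h0 : 2 * n ≠ 0 := by omega
  have h1 := key_dvd hn h
  have h2 : (∏ p ∈ n.primeFactors, p) ≠ 0 :=
    Finset.prod_ne_zero_iff.2 fun p hp => (Nat.prime_of_mem_primeFactors hp).ne_zero
  have h3 : (∏ p ∈ AA n, (p + 1)) ≠ 0 := Finset.prod_ne_zero_iff.2 fun p _ => by omega
  have h4 := (Nat.factorization_le_iff_dvd (mul_ne_zero h2 h3) h0).2 h1 q
  rw [Nat.factorization_mul h2 h3, Finsupp.add_apply] at h4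
  have h6 : (∏ p ∈ AA n, (p + 1)).factorization = ∑ p ∈ AA n, (p + 1).factorization :=
    Nat.factorization_prod (fun p _ => Nat.succ_ne_zero p)
  rw [h6, Finsupp.finsetSum_apply] at h4
  refine le_trans (Nat.add_le_add_right ?_ _) h4
  split_ifs with h5
  · have hq := Nat.prime_of_mem_primeFactors h5
    exact hq.factorization_pos_of_dvd h2 (Finset.dvd_prod_of_mem _ h5)
  · exact Nat.zero_le _

theorem fact_two {n : ℕ} (hn : n ≠ 0) : (2 * n).factorization 2 = n.factorization 2 + 1 := by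
  rw [Nat.factorization_mul (by norm_num) hn, Finsupp.add_apply,
    Nat.prime_two.factorization_self, add_comm]

theorem fact_odd {n q : ℕ} (hn : n ≠ 0) (hq : q ≠ 2) (hqp : q.Prime) :
    (2 * n).factorization q = n.factorization q := by
  rw [Nat.factorization_mul (by norm_num) hn, Finsupp.add_apply,
    Nat.factorization_eq_zero_of_not_dvd, zero_add]
  intro h
  exact hq ((Nat.prime_dvd_prime_iff_eq hqp Nat.prime_two).1 h)

theorem one_le_fact {m q : ℕ} (hm : m ≠ 0) (hq : q.Prime) (h : q ∣ m) : 1 ≤ m.factorization q :=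
  hq.factorization_pos_of_dvd hm h

/-- a prime divisor of `p + 1` is in `AA n` or in `TT n` -/
theorem hit_mem {n p q : ℕ} (hn : n ≠ 0) (h : sigE n = 2 * n) (hp : p ∈ AA n) (hq : q.Prime)
    (hq2 : q ≠ 2) (hqp : q ∣ p + 1) : q ∈ AA n ∨ q ∈ TT n := by
  have h1 := fact_prod (q := q) hn h
  rw [fact_odd hn hq2 hq] at h1
  have h2 : (p + 1).factorization q ≤ ∑ p ∈ AA n, (p + 1).factorization q :=
    Finset.single_le_sum (f := fun p => (p + 1).factorization q) (fun _ _ => Nat.zero_le _) hp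
  have h3 := one_le_fact (by omega) hq hqp
  have h4 : q ∈ n.primeFactors := by
    rw [← Nat.support_factorization, Finsupp.mem_support_iff]
    omega
  rw [if_pos h4] at h1
  rcases Nat.lt_or_ge (n.factorization q) 3 with h5 | h5
  · left
    exact mem_AA.2 ⟨hq, hq2, by omega⟩
  · right
    exact mem_TT.2 ⟨hq, hq2, h5⟩

/-- every `q` in `AA n` is hit at most once -/
theorem hit_card {n q : ℕ} (hn : n ≠ 0) (h : sigE n = 2 * n) (hq : q ∈ AA n) :
    ((AA n).filter fun p => q ∣ p + 1).card ≤ 1 := by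
  obtain ⟨hqp, hq2, hq3⟩ := mem_AA.1 hq
  have h1 := fact_prod (q := q) hn h
  rw [fact_odd hn hq2 hqp, hq3] at h1
  have h4 : q ∈ n.primeFactors := by
    rw [← Nat.support_factorization, Finsupp.mem_support_iff]
    omega
  rw [if_pos h4] at h1
  have h2 : ((AA n).filter fun p => q ∣ p + 1).card ≤ ∑ p ∈ AA n, (p + 1).factorization q := by
    rw [Finset.card_eq_sum_ones, Finset.sum_filter]
    refine Finset.sum_le_sum fun p _ => ?_
    split_ifs with h5
    · exact one_le_fact (by omega) hqp h5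
    · exact Nat.zero_le _
  omega

/-- the elements of `AA n` are `≡ 1 mod 3` -/
theorem AA_mod {n p : ℕ} (hn : n ≠ 0) (h3 : ¬ 3 ∣ n) (h : sigE n = 2 * n) (hp : p ∈ AA n) :
    p % 3 = 1 := by
  obtain ⟨hpp, hp2, hp3⟩ := mem_AA.1 hp
  have h4 : ¬ 3 ∣ 2 * n := by
    intro h5
    rcases (Nat.prime_three.dvd_mul).1 h5 with h6 | h6
    · omega
    · exact h3 h6
  have h5 : ¬ 3 ∣ p := by
    intro h6
    have h7 := (Nat.prime_dvd_prime_iff_eq Nat.prime_three hpp).1 h6
    apply h3
    rw [h7]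
    apply Nat.dvd_of_factorization_pos
    omega
  have h6 : ¬ 3 ∣ p + 1 := by
    intro h7
    apply h4
    refine (h7.trans ?_).trans (key_dvd hn h)
    refine Dvd.dvd.mul_left ?_ _
    exact Finset.dvd_prod_of_mem (fun p => p + 1) hp
  omega

theorem two_adic {n : ℕ} (hn : n ≠ 0) (h : sigE n = 2 * n) :
    ∑ p ∈ AA n, (p + 1).factorization 2 ≤ max 1 (n.factorization 2) := by
  have h1 := fact_prod (q := 2) hn h
  rw [fact_two hn] at h1
  by_cases h2 : 2 ∈ n.primeFactors
  · rw [if_pos h2] at h1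
    exact le_max_of_le_right (by omega)
  · have h3 : n.factorization 2 = 0 := by
      rw [← Nat.support_factorization, Finsupp.mem_support_iff, not_not] at h2
      exact h2
    rw [if_neg h2, h3] at h1
    exact le_max_of_le_left (by omega)

theorem fact_ne_two {n : ℕ} (hn : n ≠ 0) (h3 : ¬ 3 ∣ n) (h : sigE n = 2 * n) :
    n.factorization 2 ≠ 2 := by
  intro h2
  have h4 : ¬ 3 ∣ 2 * n := by
    intro h5
    rcases (Nat.prime_three.dvd_mul).1 h5 with h6 | h6
    · omega
    · exact h3 h6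
  apply h4
  have h5 : 2 ∈ n.primeFactors := by
    rw [← Nat.support_factorization, Finsupp.mem_support_iff, h2]
    norm_num
  rw [← h, sigE_eq hn]
  refine Dvd.dvd.trans ?_ (Finset.dvd_prod_of_mem (fun p => sE p (n.factorization p)) h5)
  change 3 ∣ sE 2 (n.factorization 2)
  rw [h2, sE_two]
  exact ⟨2, rfl⟩

/-- a bound of `sE p a` for `a ≥ 3` -/
theorem sE_le {p a : ℕ} (hp : 2 ≤ p) (ha : 3 ≤ a) :
    (sE p a : ℝ) ≤ (p : ℝ) ^ a * (1 + 1 / ((p : ℝ) * (p - 1))) := by
  have hp' : (2 : ℝ) ≤ p := by exact_mod_cast hp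
  have h1 : a.divisors ⊆ insert a (Finset.range (a - 1)) := by
    intro b hb
    rw [Nat.mem_divisors] at hb
    rw [mem_insert, mem_range]
    obtain ⟨c, hc⟩ := hb.1
    rcases Nat.lt_or_ge c 2 with h2 | h2
    · left
      interval_cases c
      · omega
      · omega
    · right
      have h3 : b * 2 ≤ b * c := Nat.mul_le_mul_left b h2
      omega
  have h2 : sE p a ≤ p ^ a + ∑ b ∈ Finset.range (a - 1), p ^ b := by
    unfold sE
    refine (Finset.sum_le_sum_of_subset h1).trans ?_
    rw [Finset.sum_insert]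
    rw [mem_range]
    omega
  have h3 : (sE p a : ℝ) ≤ (p : ℝ) ^ a + ∑ b ∈ Finset.range (a - 1), (p : ℝ) ^ b := by
    exact_mod_cast h2
  have h4 : ∑ b ∈ Finset.range (a - 1), (p : ℝ) ^ b ≤ (p : ℝ) ^ a / (p * (p - 1)) := by
    rw [geom_sum_eq (by linarith), div_le_div_iff₀ (by linarith) (by nlinarith)]
    obtain ⟨b, rfl⟩ : ∃ b, a = b + 1 := ⟨a - 1, by omega⟩
    rw [Nat.add_sub_cancel]
    have h5 : (0 : ℝ) < (p : ℝ) ^ b := by positivity
    have h6 : (0 : ℝ) ≤ p * ((p : ℝ) - 1) := by nlinarith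
    rw [pow_succ]
    nlinarith
  calc (sE p a : ℝ) ≤ (p : ℝ) ^ a + (p : ℝ) ^ a / (p * (p - 1)) := h3.trans (by linarith)
    _ = (p : ℝ) ^ a * (1 + 1 / ((p : ℝ) * (p - 1))) := by ring

/-- the weight of `2` -/
noncomputable def rho (a : ℕ) : ℝ := Real.log ((sE 2 a : ℝ) / 2 ^ a)

/-- the logarithmic identity -/
theorem log_le {n : ℕ} (hn : n ≠ 0) (h : sigE n = 2 * n) :
    Real.log 2 ≤ rho (n.factorization 2) + ∑ p ∈ AA n, ww p +
      ∑ t ∈ TT n, 1 / ((t : ℝ) * (t - 1)) := by
  have h1 : (2 : ℝ) = ∏ p ∈ n.primeFactors,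
      ((sE p (n.factorization p) : ℝ) / (p : ℝ) ^ (n.factorization p)) := by
    rw [Finset.prod_div_distrib]
    have h2 : (∏ p ∈ n.primeFactors, (sE p (n.factorization p) : ℝ)) = 2 * (n : ℝ) := by
      have := sigE_eq hn
      rw [h] at this
      exact_mod_cast this.symm
    have h3 : (∏ p ∈ n.primeFactors, (p : ℝ) ^ (n.factorization p)) = (n : ℝ) := by
      have := Nat.prod_factorization_pow_eq_self hn
      rw [Finsupp.prod, Nat.support_factorization] at this
      exact_mod_cast this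
    rw [h2, h3]
    have : (n : ℝ) ≠ 0 := by exact_mod_cast hn
    field_simp
  have hpos : ∀ p ∈ n.primeFactors,
      0 < (sE p (n.factorization p) : ℝ) / (p : ℝ) ^ (n.factorization p) := by
    intro p hp
    have hpp := Nat.prime_of_mem_primeFactors hp
    have h2 := sE_pos hpp.pos
      (hpp.factorization_pos_of_dvd hn (Nat.dvd_of_mem_primeFactors hp)).ne'
    have h3 : (0 : ℝ) < p := by exact_mod_cast hpp.pos
    have h4 : (0 : ℝ) < sE p (n.factorization p) := by exact_mod_cast h2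
    positivity
  have h2 : Real.log 2 = ∑ p ∈ n.primeFactors,
      Real.log ((sE p (n.factorization p) : ℝ) / (p : ℝ) ^ (n.factorization p)) := by
    rw [← Real.log_prod (fun p hp => (hpos p hp).ne'), ← h1]
  rw [h2]
  have h3 : ∀ p ∈ n.primeFactors,
      Real.log ((sE p (n.factorization p) : ℝ) / (p : ℝ) ^ (n.factorization p)) ≤
        (if p = 2 then rho (n.factorization 2) else 0) +
        (if p ≠ 2 ∧ n.factorization p = 2 then ww p else 0) +
        (if p ≠ 2 ∧ 3 ≤ n.factorization p then 1 / ((p : ℝ) * (p - 1)) else 0) := by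
    intro p hp
    have hpp := Nat.prime_of_mem_primeFactors hp
    have hp1 := hpp.factorization_pos_of_dvd hn (Nat.dvd_of_mem_primeFactors hp)
    have hp0 : (0 : ℝ) < p := by exact_mod_cast hpp.pos
    have hp2' : (2 : ℝ) ≤ p := by exact_mod_cast hpp.two_le
    by_cases h4 : p = 2
    · subst h4
      simp [rho]
    by_cases h5 : n.factorization p = 2
    · rw [if_neg h4, if_pos ⟨h4, h5⟩, if_neg (by omega), h5, zero_add, add_zero, sE_two]
      refine le_of_eq ?_
      unfold ww
      congr 1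
      push_cast
      field_simp
    by_cases h6 : 3 ≤ n.factorization p
    · rw [if_neg h4, if_neg (by tauto), if_pos ⟨h4, h6⟩, zero_add, zero_add]
      have h7 := sE_le hpp.two_le h6
      have h8 := hpos p hp
      have h9 := Real.log_le_sub_one_of_pos h8
      refine h9.trans ?_
      have h10 : (0 : ℝ) < (p : ℝ) ^ (n.factorization p) := by positivity
      have h11 : (sE p (n.factorization p) : ℝ) / (p : ℝ) ^ (n.factorization p) ≤
          1 + 1 / ((p : ℝ) * (p - 1)) := by
        rw [div_le_iff₀ h10, mul_comm]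
        exact h7
      linarith
    · have h7 : n.factorization p = 1 := by omega
      rw [if_neg h4, if_neg (by tauto), if_neg (by tauto), h7]
      have h8 : sE p 1 = p := by
        unfold sE
        rw [Nat.divisors_one, sum_singleton, pow_one]
      rw [h8, pow_one, div_self hp0.ne', Real.log_one]
      norm_num
  refine (Finset.sum_le_sum h3).trans ?_
  rw [Finset.sum_add_distrib, Finset.sum_add_distrib, ← Finset.sum_filter, ← Finset.sum_filter,
    ← Finset.sum_filter]
  refine add_le_add (add_le_add ?_ le_rfl) le_rfl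
  by_cases h4 : 2 ∈ n.primeFactors
  · rw [Finset.filter_eq', if_pos h4, sum_singleton]
  · rw [Finset.filter_eq', if_neg h4, sum_empty]
    have h5 : n.factorization 2 = 0 := by
      rw [← Nat.support_factorization, Finsupp.mem_support_iff, not_not] at h4
      exact h4
    rw [h5]
    unfold rho sE
    simp

end Pool.Agent.EP364
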