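import Pool.Agent.Lib_MP_bed364_nt.Root

/-!
# MP_bed364_nt: the large roots
-/

set_option autoImplicit false

namespace Pool.Agent.EP364

open Finset

/-- the completely multiplicative function `m ↦ m ^ (-1/2)` -/
noncomputable def ff : ℕ →*₀ ℝ where
  toFun n := (Real.sqrt n)⁻¹
  map_zero' := by simp
  map_one' := by simp
  map_mul' m n := by
    rw [Nat.cast_mul, Real.sqrt_mul (Nat.cast_nonneg m), mul_inv]

theorem ff_apply (n : ℕ) : ff n = (Real.sqrt n)⁻¹ := rfl

theorem ff_nonneg (n : ℕ) : 0 ≤ ff n := by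
  rw [ff_apply]
  positivity

theorem ff_le {t : ℕ} {r : ℝ} (hr : 0 < r) (h : 1 ≤ r ^ 2 * t) : ff t ≤ r := by
  rw [ff_apply]
  have h1 : r⁻¹ ≤ Real.sqrt t := by
    apply Real.le_sqrt_of_sq_le
    rw [inv_pow, inv_le_iff_one_le_mul₀ (by positivity)]
    linarith
  have h2 : (0 : ℝ) < r⁻¹ := inv_pos.2 hr
  calc (Real.sqrt t)⁻¹ ≤ (r⁻¹)⁻¹ := inv_anti₀ h2 h1
    _ = r := inv_inv r

theorem ff_two_sq : ff 2 * ff 2 = 1 / 2 := by
  rw [← map_mul, ff_apply]
  have : (((2 * 2 : ℕ) : ℝ)) = 2 ^ 2 := by norm_num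
  rw [this, Real.sqrt_sq (by norm_num)]
  norm_num

theorem ff_lt_one {p : ℕ} (hp : p.Prime) : ‖ff p‖ < 1 := by
  rw [Real.norm_of_nonneg (ff_nonneg p)]
  have h := hp.two_le
  have h' : (2 : ℝ) ≤ p := by exact_mod_cast h
  have : ff p ≤ 0.8 := ff_le (by norm_num) (by norm_num; linarith)
  norm_num at this
  linarith

/-- the Euler product bound -/
theorem sum_factored (T : Finset ℕ) (hT : ∀ t ∈ T, t.Prime) (Y : Finset ℕ)
    (hY : ∀ m ∈ Y, m ∈ Nat.factoredNumbers T) :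
    ∑ m ∈ Y, ff m ≤ ∏ t ∈ T, (1 - ff t)⁻¹ := by
  classical
  have h := (EulerProduct.summable_and_hasSum_factoredNumbers_prod_filter_prime_geometric
    (f := (ff : ℕ →* ℝ)) (fun {p} hp => ff_lt_one hp) T).2
  have h1 : T.filter (fun p => p.Prime) = T := Finset.filter_true_of_mem hT
  rw [h1] at h
  rw [← Finset.sum_subtype_of_mem (p := fun m => m ∈ Nat.factoredNumbers T) (fun m => ff m) hY]
  exact sum_le_hasSum _ (fun i _ => ff_nonneg _) h

theorem pow2_mod (v : ℕ) : 2 ^ v % 3 = if v % 2 = 0 then 1 else 2 := by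
  induction v with
  | zero => rfl
  | succ v ih =>
    rw [pow_succ, Nat.mul_mod, ih]
    split_ifs <;> omega

/-- the exponent of `2` -/
def vv (p : ℕ) : ℕ := (p + 1).factorization 2

/-- the odd part -/
def oo (p : ℕ) : ℕ := (p + 1) / 2 ^ (p + 1).factorization 2

theorem vo (p : ℕ) : p + 1 = 2 ^ vv p * oo p := (Nat.ordProj_mul_ordCompl_eq_self (p + 1) 2).symm

theorem vv_pos {p : ℕ} (h : p % 2 = 1) : 1 ≤ vv p :=
  Nat.prime_two.factorization_pos_of_dvd (by omega) (by omega)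

theorem vv_parity {p : ℕ} (h : p % 3 = 1) : vv p % 2 = 0 ∧ oo p % 3 = 2 ∨
    vv p % 2 = 1 ∧ oo p % 3 = 1 := by
  have h1 : (2 ^ vv p * oo p) % 3 = 2 := by rw [← vo]; omega
  rw [Nat.mul_mod, pow2_mod] at h1
  have h2 : oo p % 3 < 3 := Nat.mod_lt _ (by norm_num)
  generalize oo p % 3 = a at *
  split_ifs at h1 with h3
  · left
    interval_cases a <;> omega
  · right
    interval_cases a <;> omega

theorem tail_sum {n : ℕ} {R T : Finset ℕ} (G : Good n R T) (U : Finset ℕ) (hU : U ⊆ R) :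
    ∑ p ∈ U, ff (p + 1) ≤ 2 * ff 2 * ∏ t ∈ T, (1 - ff t)⁻¹ := by
  classical
  have hodd : ∀ p ∈ U, p % 2 = 1 := by
    intro p hp
    have h1 := G.prime p (hU hp)
    have h2 := G.mod p (hU hp)
    exact (h1.eq_two_or_odd).resolve_left (by rintro rfl; norm_num at h2)
  have h1 : ∀ p ∈ U, ff (p + 1) ≤ ff 2 * (1 / 2) ^ ((vv p - 1) / 2) * ff (oo p) := by
    intro p hp
    rw [vo p, map_mul, map_pow]
    refine mul_le_mul_of_nonneg_right ?_ (ff_nonneg _)
    have h2 := vv_pos (hodd p hp)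
    have h3 : 2 * ((vv p - 1) / 2) + 1 ≤ vv p := by omega
    calc ff 2 ^ vv p ≤ ff 2 ^ (2 * ((vv p - 1) / 2) + 1) :=
          pow_le_pow_of_le_one (ff_nonneg 2)
            (by have := ff_lt_one Nat.prime_two; rw [Real.norm_of_nonneg (ff_nonneg 2)] at this
                exact this.le) h3
      _ = ff 2 * (1 / 2) ^ ((vv p - 1) / 2) := by
          rw [pow_succ, pow_mul, pow_two, ff_two_sq]
          ring
  have hinj : Set.InjOn (fun p => ((vv p - 1) / 2, oo p)) U := by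
    intro p hp p' hp' he
    rw [Prod.mk.injEq] at he
    have h2 := vv_parity (G.mod p (hU hp))
    have h3 := vv_parity (G.mod p' (hU hp'))
    have h4 := vv_pos (hodd p hp)
    have h5 := vv_pos (hodd p' hp')
    have h6 : vv p = vv p' := by
      rw [he.2] at h2
      omega
    have h7 : p + 1 = p' + 1 := by rw [vo p, vo p', h6, he.2]
    omega
  obtain ⟨N, hN⟩ : ∃ N, ∀ p ∈ U, (vv p - 1) / 2 < N := by
    refine ⟨(U.sup fun p => (vv p - 1) / 2) + 1, fun p hp => ?_⟩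
    exact Nat.lt_succ_of_le (Finset.le_sup (f := fun p => (vv p - 1) / 2) hp)
  calc ∑ p ∈ U, ff (p + 1) ≤ ∑ p ∈ U, ff 2 * (1 / 2) ^ ((vv p - 1) / 2) * ff (oo p) :=
        Finset.sum_le_sum h1
    _ = ∑ x ∈ U.image (fun p => ((vv p - 1) / 2, oo p)), ff 2 * (1 / 2) ^ x.1 * ff x.2 := by
        rw [Finset.sum_image hinj]
    _ ≤ ∑ x ∈ Finset.range N ×ˢ U.image oo, ff 2 * (1 / 2) ^ x.1 * ff x.2 := by
        refine Finset.sum_le_sum_of_subset_of_nonneg ?_ ?_
        · intro x hx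
          obtain ⟨p, hp, rfl⟩ := Finset.mem_image.1 hx
          exact mem_product.2 ⟨mem_range.2 (hN p hp), Finset.mem_image_of_mem _ hp⟩
        · intro x _ _
          exact mul_nonneg (mul_nonneg (ff_nonneg 2) (by positivity)) (ff_nonneg _)
    _ = ff 2 * (∑ k ∈ Finset.range N, (1 / 2 : ℝ) ^ k) * ∑ m ∈ U.image oo, ff m := by
        rw [Finset.sum_product, Finset.mul_sum (Finset.range N) (fun k => (1 / 2 : ℝ) ^ k) (ff 2),
          Finset.sum_mul_sum]
    _ ≤ ff 2 * 2 * ∏ t ∈ T, (1 - ff t)⁻¹ := by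
        have h2 : (∑ k ∈ Finset.range N, (1 / 2 : ℝ) ^ k) ≤ 2 := by
          rw [geom_sum_eq (by norm_num)]
          have : (0 : ℝ) < (1 / 2) ^ N := by positivity
          rw [div_le_iff_of_neg (by norm_num)]
          norm_num at this ⊢
        have h3 : ∑ m ∈ U.image oo, ff m ≤ ∏ t ∈ T, (1 - ff t)⁻¹ := by
          refine sum_factored T G.primeT _ ?_
          intro m hm
          obtain ⟨p, hp, rfl⟩ := Finset.mem_image.1 hm
          rw [Nat.mem_factoredNumbers']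
          intro q hq hqm
          refine G.hit p (hU hp) q hq ?_ ?_
          · rintro rfl
            exact Nat.not_dvd_ordCompl Nat.prime_two (by omega) hqm
          · rw [vo p]
            exact hqm.mul_left _
        have h4 : 0 ≤ ∑ m ∈ U.image oo, ff m := Finset.sum_nonneg fun m _ => ff_nonneg m
        exact mul_le_mul (mul_le_mul_of_nonneg_left h2 (ff_nonneg 2)) h3 h4
          (mul_nonneg (ff_nonneg 2) (by norm_num))
    _ = 2 * ff 2 * ∏ t ∈ T, (1 - ff t)⁻¹ := by ring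

theorem prod_threshold (T P : Finset ℕ) (F : ℕ → ℝ) (θ : ℝ) (K : ℕ) (hθ : 1 ≤ θ)
    (hcard : T.card ≤ K) (h0 : ∀ t ∈ T, 0 ≤ F t) (h1 : ∀ t ∈ T, t ∉ P → F t ≤ θ)
    (hP : ∀ t ∈ P, θ ≤ F t) : ∏ t ∈ T, F t ≤ θ ^ K * ∏ t ∈ P, (F t / θ) := by
  classical
  have hθ0 : 0 < θ := by linarith
  have h2 : ∏ t ∈ T, F t = θ ^ T.card * ∏ t ∈ T, (F t / θ) := by
    rw [Finset.prod_div_distrib, Finset.prod_const]
    field_simp
  have h3 : ∏ t ∈ T, (F t / θ) ≤ ∏ t ∈ T.filter (fun t => t ∈ P), (F t / θ) := by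
    rw [Finset.prod_filter]
    refine Finset.prod_le_prod (fun t ht => div_nonneg (h0 t ht) hθ0.le) fun t ht => ?_
    split_ifs with h4
    · exact le_rfl
    · rw [div_le_one hθ0]
      exact h1 t ht h4
  have h4 : ∏ t ∈ T.filter (fun t => t ∈ P), (F t / θ) ≤ ∏ t ∈ P, (F t / θ) := by
    rw [← Finset.prod_sdiff (s₁ := T.filter (fun t => t ∈ P)) (s₂ := P)
      (fun t ht => (mem_filter.1 ht).2)]
    refine le_mul_of_one_le_left ?_ ?_
    · exact Finset.prod_nonneg fun t ht => div_nonneg (h0 t (mem_filter.1 ht).1) hθ0.le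
    · refine le_trans (le_of_eq Finset.prod_const_one.symm)
        (Finset.prod_le_prod (fun _ _ => zero_le_one) fun t ht => ?_)
      rw [one_le_div hθ0]
      exact hP t (mem_sdiff.1 ht).1
  have h5 : θ ^ T.card ≤ θ ^ K := pow_le_pow_right₀ hθ hcard
  have h6 : 0 ≤ ∏ t ∈ T, (F t / θ) := Finset.prod_nonneg fun t ht => div_nonneg (h0 t ht) hθ0.le
  rw [h2]
  exact mul_le_mul h5 (h3.trans h4) h6 (by positivity)

/-- upper bounds of `t ^ (-1/2)` -/
noncomputable def rt (t : ℕ) : ℝ :=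
  if t = 5 then 44722 / 100000 else if t = 7 then 37797 / 100000 else
  if t = 11 then 30152 / 100000 else if t = 13 then 27736 / 100000 else
  if t = 17 then 24254 / 100000 else if t = 19 then 22942 / 100000 else
  if t = 23 then 20852 / 100000 else if t = 29 then 18570 / 100000 else
  if t = 31 then 17961 / 100000 else if t = 37 then 16440 / 100000 else
  if t = 41 then 15618 / 100000 else if t = 43 then 15250 / 100000 else
  if t = 47 then 14587 / 100000 else if t = 53 then 13737 / 100000 else 13019 / 100000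

/-- the first primes `≥ 5` -/
def P14 : Finset ℕ := {5, 7, 11, 13, 17, 19, 23, 29, 31, 37, 41, 43, 47, 53}

theorem rt_ge {t : ℕ} (ht : t.Prime) (h5 : 5 ≤ t) : ff t ≤ rt t := by
  by_cases h : t ∈ P14
  · simp only [P14, mem_insert, mem_singleton] at h
    rcases h with rfl | rfl | rfl | rfl | rfl | rfl | rfl | rfl | rfl | rfl | rfl | rfl | rfl | rfl <;>
      exact ff_le (by norm_num [rt]) (by norm_num [rt])
  · have h1 : 59 ≤ t := by
      by_contra h2
      have h3 : t < 59 := by omega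
      revert ht h
      interval_cases t <;> simp [P14] <;> norm_num
    have h2 : rt t = 13019 / 100000 := by
      unfold rt
      rw [if_neg (by omega), if_neg (by omega), if_neg (by omega), if_neg (by omega),
        if_neg (by omega), if_neg (by omega), if_neg (by omega), if_neg (by omega),
        if_neg (by omega), if_neg (by omega), if_neg (by omega), if_neg (by omega),
        if_neg (by omega), if_neg (by omega)]
    rw [h2]
    refine ff_le (by norm_num) ?_
    have h3 : (59 : ℝ) ≤ t := by exact_mod_cast h1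
    nlinarith

theorem ite_mem {c : Prop} [Decidable c] {P : ℝ → Prop} {a b : ℝ} (ha : P a) (hb : P b) :
    P (if c then a else b) := by
  by_cases h : c
  · rwa [if_pos h]
  · rwa [if_neg h]

theorem rt_lt (t : ℕ) : rt t ≤ 44722 / 100000 ∧ 13019 / 100000 ≤ rt t := by
  unfold rt
  refine ite_mem (P := fun x => x ≤ 44722 / 100000 ∧ 13019 / 100000 ≤ x) (by norm_num) ?_
  refine ite_mem (P := fun x => x ≤ 44722 / 100000 ∧ 13019 / 100000 ≤ x) (by norm_num) ?_
  refine ite_mem (P := fun x => x ≤ 44722 / 100000 ∧ 13019 / 100000 ≤ x) (by norm_num) ?_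
  refine ite_mem (P := fun x => x ≤ 44722 / 100000 ∧ 13019 / 100000 ≤ x) (by norm_num) ?_
  refine ite_mem (P := fun x => x ≤ 44722 / 100000 ∧ 13019 / 100000 ≤ x) (by norm_num) ?_
  refine ite_mem (P := fun x => x ≤ 44722 / 100000 ∧ 13019 / 100000 ≤ x) (by norm_num) ?_
  refine ite_mem (P := fun x => x ≤ 44722 / 100000 ∧ 13019 / 100000 ≤ x) (by norm_num) ?_
  refine ite_mem (P := fun x => x ≤ 44722 / 100000 ∧ 13019 / 100000 ≤ x) (by norm_num) ?_
  refine ite_mem (P := fun x => x ≤ 44722 / 100000 ∧ 13019 / 100000 ≤ x) (by norm_num) ?_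
  refine ite_mem (P := fun x => x ≤ 44722 / 100000 ∧ 13019 / 100000 ≤ x) (by norm_num) ?_
  refine ite_mem (P := fun x => x ≤ 44722 / 100000 ∧ 13019 / 100000 ≤ x) (by norm_num) ?_
  refine ite_mem (P := fun x => x ≤ 44722 / 100000 ∧ 13019 / 100000 ≤ x) (by norm_num) ?_
  refine ite_mem (P := fun x => x ≤ 44722 / 100000 ∧ 13019 / 100000 ≤ x) (by norm_num) ?_
  refine ite_mem (P := fun x => x ≤ 44722 / 100000 ∧ 13019 / 100000 ≤ x) (by norm_num) ?_
  norm_num

/-- the bound of the Euler product -/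
theorem prod_le {n : ℕ} {R T : Finset ℕ} (G : Good n R T) (hc : T.card ≤ 14) :
    ∏ t ∈ T, (1 - ff t)⁻¹ ≤ if 7 ∈ T then 42.41 else 30.33 := by
  have hpos : ∀ t, 0 < 1 - rt t := fun t => by linarith [(rt_lt t).1]
  have h1 : ∏ t ∈ T, (1 - ff t)⁻¹ ≤ ∏ t ∈ T, (1 - rt t)⁻¹ := by
    refine Finset.prod_le_prod (fun t ht => ?_) (fun t ht => ?_)
    · have := rt_ge (G.primeT t ht) (G.geT t ht)
      exact inv_nonneg.2 (by linarith [hpos t])
    · have := rt_ge (G.primeT t ht) (G.geT t ht)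
      exact inv_anti₀ (hpos t) (by linarith)
  refine h1.trans ?_
  have hge : ∀ t, (1 - 13019 / 100000 : ℝ)⁻¹ ≤ (1 - rt t)⁻¹ := fun t =>
    inv_anti₀ (hpos t) (by linarith [(rt_lt t).2])
  have hle : ∀ t ∈ T, t ∉ P14 → (1 - rt t)⁻¹ ≤ (1 - 13019 / 100000 : ℝ)⁻¹ := by
    intro t ht h
    have h3 : rt t = 13019 / 100000 := by
      simp only [P14, mem_insert, mem_singleton, not_or] at h
      unfold rt
      simp only [h, if_false]
    rw [h3]
  split_ifs with h7
  · have h2 := prod_threshold T P14 (fun t => (1 - rt t)⁻¹) (1 - 13019 / 100000 : ℝ)⁻¹ 14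
      (by norm_num) hc (fun t _ => inv_nonneg.2 (hpos t).le) hle (fun t _ => hge t)
    refine h2.trans ?_
    simp only [P14]
    norm_num [rt]
  · have h2 := prod_threshold T (P14.erase 7) (fun t => (1 - rt t)⁻¹)
      (1 - 13019 / 100000 : ℝ)⁻¹ 14
      (by norm_num) hc (fun t _ => inv_nonneg.2 (hpos t).le) ?_ (fun t _ => hge t)
    · refine h2.trans ?_
      have h3 : P14.erase 7 = {5, 11, 13, 17, 19, 23, 29, 31, 37, 41, 43, 47, 53} := by decide
      rw [h3]
      norm_num [rt]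
    · intro t ht h
      refine hle t ht fun h4 => h ?_
      rw [mem_erase]
      exact ⟨fun h5 => h7 (h5 ▸ ht), h4⟩

/-- the bound for the large roots -/
theorem tail_le {n : ℕ} {R T : Finset ℕ} (G : Good n R T) (hc : T.card ≤ 14) (U : Finset ℕ)
    (hU : U ⊆ R) (hX : ∀ p ∈ U, 2 ^ 24 < p + 1) :
    ∑ p ∈ U, (ww p + pr T p) ≤ if 7 ∈ T then 0.0295 else 0.0211 := by
  have h1 : ∀ p ∈ U, ww p + pr T p ≤ 2.000001 / 4096 * ff (p + 1) := by
    intro p hp
    have h2 := hX p hp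
    have h3 : ww p + pr T p ≤ 2 / ((p : ℝ) - 1) :=
      (add_le_add_right (pr_le T p) _).trans (two_step (by omega))
    refine h3.trans ?_
    have h4 : (16777216 : ℝ) ≤ (p : ℝ) + 1 := by
      have : 16777216 ≤ p + 1 := by norm_num at h2; omega
      exact_mod_cast this
    rw [ff_apply]
    push_cast
    have h5 : (4096 : ℝ) ≤ Real.sqrt ((p : ℝ) + 1) := by
      apply Real.le_sqrt_of_sq_le
      norm_num
      linarith
    have h6 : Real.sqrt ((p : ℝ) + 1) * Real.sqrt ((p : ℝ) + 1) = (p : ℝ) + 1 :=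
      Real.mul_self_sqrt (by linarith)
    have h7 : (0 : ℝ) < Real.sqrt ((p : ℝ) + 1) := by linarith
    rw [← div_eq_mul_inv, div_div, div_le_div_iff₀ (by linarith) (by positivity)]
    have h8 : 4096 * Real.sqrt ((p : ℝ) + 1) ≤ (p : ℝ) + 1 := by
      calc 4096 * Real.sqrt ((p : ℝ) + 1) ≤ Real.sqrt ((p : ℝ) + 1) * Real.sqrt ((p : ℝ) + 1) :=
            mul_le_mul_of_nonneg_right h5 h7.le
        _ = (p : ℝ) + 1 := h6
    norm_num
    linarith
  have h2 : ∑ p ∈ U, (ww p + pr T p) ≤ 2.000001 / 4096 * (2 * ff 2 * ∏ t ∈ T, (1 - ff t)⁻¹) := by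
    calc ∑ p ∈ U, (ww p + pr T p) ≤ ∑ p ∈ U, 2.000001 / 4096 * ff (p + 1) := Finset.sum_le_sum h1
      _ = 2.000001 / 4096 * ∑ p ∈ U, ff (p + 1) := by rw [Finset.mul_sum]
      _ ≤ 2.000001 / 4096 * (2 * ff 2 * ∏ t ∈ T, (1 - ff t)⁻¹) :=
          mul_le_mul_of_nonneg_left (tail_sum G U hU) (by norm_num)
  have h3 := prod_le G hc
  have h4 : ff 2 ≤ 0.70711 := ff_le (by norm_num) (by norm_num)
  have h5 : 0 ≤ ∏ t ∈ T, (1 - ff t)⁻¹ := by
    refine Finset.prod_nonneg fun t ht => inv_nonneg.2 ?_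
    have := ff_lt_one (G.primeT t ht)
    rw [Real.norm_of_nonneg (ff_nonneg t)] at this
    linarith
  have h6 : 2 * ff 2 * ∏ t ∈ T, (1 - ff t)⁻¹ ≤ 1.41422 * ∏ t ∈ T, (1 - ff t)⁻¹ := by
    refine mul_le_mul_of_nonneg_right ?_ h5
    linarith
  refine h2.trans ?_
  split_ifs at h3 ⊢ with h7
  · norm_num at h3 h6 ⊢
    linarith
  · norm_num at h3 h6 ⊢
    linarith

end Pool.Agent.EP364
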