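import Pool.Agent.Lib_MP_bed364_nt.Small
import Pool.Agent.Lib_MP_bed364_nt.Class
import Pool.Agent.Lib_MP_bed364_nt.Tail

/-!
# MP_bed364_nt: the main theorem
-/

set_option autoImplicit false

namespace Pool.Agent.EP364

open Finset

/-- the bound for `7` if `13 ∈ T` -/
def K7 : ℕ := Wz 7 + (SS / 48 + 1)

/-- the bound for `19` if `37 ∈ T` -/
def K19 : ℕ := Wz 19 + (SS / 75 + 1)

/-- the threshold -/
def θz : ℕ := 6440000000

/-- the bound for `1 / (t (t - 1))` -/
def yz (t : ℕ) : ℕ := SS / (t * (t - 1)) + 1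

/-- the losses -/
def lossz (b7 b5 : Bool) (t : ℕ) : ℕ :=
  bif Nat.beq t 13 then bif b7 then 0 else Hz 7 - K7 else
  bif Nat.beq t 31 then Hz 31 else
  bif Nat.beq t 19 then bif b5 then K19 else 0 else
  bif Nat.beq t 37 then bif b5 then Hz 19 - K19 else 0 else
  bif Nat.beq t 79 then bif b5 then Hz 79 else 0 else 0

/-- the excess of an entry over the threshold -/
def we (b7 b5 : Bool) (e : ℕ × ℕ × ℕ × ℕ × ℕ) : ℕ :=
  bif b7 || !(Nat.beq e.1 7) then
    (e.2.2.2.1 + (bif b7 then e.2.2.2.2 else 0) + yz e.1 - lossz b7 b5 e.1) - θz else 0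

/-- the constant -/
def Cz (b7 b5 : Bool) : ℕ :=
  Hz 127 + Hz 8191 + Hz 131071 + Hz 524287 + Hz 31 + (bif b7 then 0 else Hz 7) +
    (bif b5 then Hz 19 + Hz 79 else 0)

theorem final_check : ∀ b7 b5 : Bool, Cz b7 b5 + 14 * θz + (TB.map (we b7 b5)).sum +
    (bif b5 then g5 + yz 5 - θz else 0) + (bif b7 then 29500000000 else 21100000000) +
    488281251 < 693147180300 := by
  decide +kernel

theorem good {n : ℕ} (hn : n ≠ 0) (h3 : ¬ 3 ∣ n) (h : sigE n = 2 * n) :
    Good n (RR n) (TT n) where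
  prime p hp := (mem_AA.1 (mem_filter.1 hp).1).1
  mod p hp := AA_mod hn h3 h (mem_filter.1 hp).1
  notMem p hp hT := by
    have h1 := (mem_AA.1 (mem_filter.1 hp).1).2.2
    have h2 := (mem_TT.1 hT).2.2
    omega
  hit p hp q hq hq2 hqp := by
    obtain ⟨h1, h2⟩ := mem_filter.1 hp
    rcases hit_mem hn h h1 hq hq2 hqp with h4 | h4
    · exact absurd hqp (h2 q h4)
    · exact h4
  primeT t ht := (mem_TT.1 ht).1
  geT t ht := (TT_ge h3 ht).2

/-- the special small roots -/
def SP : Finset ℕ := {7, 31, 127, 8191, 131071, 524287, 19, 79}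

theorem small_split {n : ℕ} {R T : Finset ℕ} (G : Good n R T) (h : ℕ → ℝ) (hnn : ∀ p ∈ R, 0 ≤ h p) :
    ∃ U : ℕ → Finset ℕ, (∀ t ∈ T, U t ⊆ R ∧ (∀ p ∈ U t, Top t p) ∧ (∀ p ∈ U t, p + 1 ≤ 2 * XH) ∧
      (∀ p ∈ U t, p ∉ SP)) ∧
      ∑ p ∈ R.filter (fun p => p + 1 ≤ 2 * XH), h p ≤
        ∑ p ∈ R.filter (fun p => p ∈ SP), h p + ∑ t ∈ T, ∑ p ∈ U t, h p := by
  classical
  have hex : ∀ p ∈ R.filter (fun p => p + 1 ≤ 2 * XH ∧ p ∉ SP), ∃ t, t ∈ T ∧ Top t p := by
    intro p hp
    obtain ⟨h1, h2, h3⟩ := mem_filter.1 hp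
    obtain ⟨t, ht, h4, h5⟩ := exists_top G h1 (fun k hk => by
      apply h3
      have hk24 : k ≤ 24 := by
        by_contra h6
        have h7 : 2 ^ 25 ≤ 2 ^ k := Nat.pow_le_pow_right (by norm_num) (by omega)
        rw [hk, XH] at h2
        have h8 := h7.trans h2
        norm_num at h8
      rcases mersenne (G.prime p h1) (G.mod p h1) hk hk24 with h6 | h6 | h6 | h6 | h6 | h6 <;>
        subst h6 <;> decide)
    exact ⟨t, ht, h4, h5⟩
  choose! g hg using hex
  refine ⟨fun t => (R.filter (fun p => p + 1 ≤ 2 * XH ∧ p ∉ SP)).filter (fun p => g p = t),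
    ?_, ?_⟩
  · intro t ht
    refine ⟨fun p hp => (mem_filter.1 (mem_filter.1 hp).1).1, fun p hp => ?_, fun p hp => ?_,
      fun p hp => ?_⟩
    · obtain ⟨h1, h2⟩ := mem_filter.1 hp
      rw [← h2]
      exact (hg p h1).2
    · exact (mem_filter.1 (mem_filter.1 hp).1).2.1
    · exact (mem_filter.1 (mem_filter.1 hp).1).2.2
  · rw [Finset.sum_fiberwise_of_maps_to (fun p hp => (hg p hp).1)]
    rw [← Finset.sum_filter_add_sum_filter_not (R.filter (fun p => p + 1 ≤ 2 * XH))
      (fun p => p ∈ SP)]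
    refine add_le_add ?_ (le_of_eq ?_)
    · refine Finset.sum_le_sum_of_subset_of_nonneg ?_ ?_
      · intro p hp
        obtain ⟨h1, h2⟩ := mem_filter.1 hp
        exact mem_filter.2 ⟨(mem_filter.1 h1).1, h2⟩
      · intro p hp _
        exact hnn p (mem_filter.1 hp).1
    · rw [Finset.filter_filter]

/-- the bounds of the special roots -/
noncomputable def bb (T : Finset ℕ) (p : ℕ) : ℕ :=
  if p = 7 then (if 7 ∈ T then 0 else if 13 ∈ T then K7 else Hz 7) else
  if p = 31 then (if 31 ∈ T then 0 else Hz 31) else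
  if p = 19 then (if 5 ∈ T ∧ 19 ∉ T then (if 37 ∈ T then K19 else Hz 19) else 0) else
  if p = 79 then (if 5 ∈ T ∧ 79 ∉ T then Hz 79 else 0) else Hz p

theorem bb_ge {n : ℕ} {R T : Finset ℕ} (G : Good n R T) {p : ℕ} (hp : p ∈ R) :
    (SS : ℝ) * (ww p + pr T p) ≤ bb T p := by
  have hgen := Hz_ge T (G.prime p hp).two_le
  have hT := G.notMem p hp
  unfold bb
  by_cases h7 : p = 7
  · subst h7
    rw [if_pos rfl, if_neg hT]
    by_cases h13 : 13 ∈ T
    · rw [if_pos h13]
      have h1 := Wz_ge (p := 7) (by norm_num)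
      have h2 : pr T 7 = 1 / 48 := by
        unfold pr
        rw [if_pos ⟨rfl, h13⟩]
      have h3 := div_succ_ge SS 48 (by norm_num)
      rw [h2, mul_add, K7, Nat.cast_add, mul_one_div]
      exact add_le_add h1 (by exact_mod_cast h3)
    · rw [if_neg h13]
      exact hgen
  rw [if_neg h7]
  by_cases h31 : p = 31
  · subst h31
    rw [if_pos rfl, if_neg hT]
    exact hgen
  rw [if_neg h31]
  by_cases h19 : p = 19
  · subst h19
    have h5 := G.hit 19 hp 5 (by norm_num) (by norm_num) (by norm_num)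
    rw [if_pos rfl, if_pos ⟨h5, hT⟩]
    by_cases h37 : 37 ∈ T
    · rw [if_pos h37]
      have h1 := Wz_ge (p := 19) (by norm_num)
      have h2 : pr T 19 = 1 / 75 := by
        unfold pr
        rw [if_neg (by norm_num), if_pos ⟨rfl, h37⟩]
      have h3 := div_succ_ge SS 75 (by norm_num)
      rw [h2, mul_add, K19, Nat.cast_add, mul_one_div]
      exact add_le_add h1 (by exact_mod_cast h3)
    · rw [if_neg h37]
      exact hgen
  rw [if_neg h19]
  by_cases h79 : p = 79
  · subst h79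
    have h5 := G.hit 79 hp 5 (by norm_num) (by norm_num) (by norm_num)
    rw [if_pos rfl, if_pos ⟨h5, hT⟩]
    exact hgen
  rw [if_neg h79]
  exact hgen

theorem list_sum_le (T : Finset ℕ) (L : List (ℕ × ℕ × ℕ × ℕ × ℕ))
    (w : ℕ × ℕ × ℕ × ℕ × ℕ → ℕ) :
    ∑ t ∈ T, (L.map fun e => if e.1 = t then w e else 0).sum ≤ (L.map w).sum := by
  induction L with
  | nil => simp
  | cons a L ih =>
    simp only [List.map_cons, List.sum_cons]
    rw [Finset.sum_add_distrib]
    refine add_le_add ?_ ih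
    rw [Finset.sum_ite_eq]
    split_ifs
    · exact le_rfl
    · exact Nat.zero_le _

theorem le_list_sum {L : List (ℕ × ℕ × ℕ × ℕ × ℕ)} (w : ℕ × ℕ × ℕ × ℕ × ℕ → ℕ)
    {e : ℕ × ℕ × ℕ × ℕ × ℕ} (he : e ∈ L) :
    w e ≤ (L.map fun x => if x.1 = e.1 then w x else 0).sum := by
  have h : (fun x : ℕ × ℕ × ℕ × ℕ × ℕ => if x.1 = e.1 then w x else 0) e ∈
      L.map fun x => if x.1 = e.1 then w x else 0 := List.mem_map_of_mem he
  have h2 := List.single_le_sum (fun _ _ => Nat.zero_le _) _ h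
  simpa using h2

/-- the excess of `t` -/
def Fz (b7 b5 : Bool) (t : ℕ) : ℕ :=
  (TB.map fun e => if e.1 = t then we b7 b5 e else 0).sum +
    if t = 5 then g5 + yz 5 - θz else 0

theorem yz_ge {t : ℕ} (ht : 2 ≤ t) : (SS : ℝ) * (1 / ((t : ℝ) * (t - 1))) ≤ yz t := by
  have h : 0 < t * (t - 1) := Nat.mul_pos (by omega) (by omega)
  have h1 := div_succ_ge SS (t * (t - 1)) h
  rw [Nat.cast_mul, Nat.cast_sub (by omega), Nat.cast_one] at h1
  rw [mul_one_div]
  exact h1

theorem sum_Hz {U : Finset ℕ} (T : Finset ℕ) (hU : ∀ p ∈ U, 2 ≤ p) :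
    (SS : ℝ) * ∑ p ∈ U, (ww p + pr T p) ≤ ((∑ p ∈ U, Hz p : ℕ) : ℝ) := by
  rw [Finset.mul_sum, Nat.cast_sum]
  exact Finset.sum_le_sum fun p hp => Hz_ge T (hU p hp)

/-- the bound for one element of `T` -/
theorem one_class {n t : ℕ} {R T U : Finset ℕ} (G : Good n R T) (ht : t ∈ T)
    (hUR : U ⊆ R) (hU : ∀ p ∈ U, Top t p) (hX : ∀ p ∈ U, p + 1 ≤ 2 * XH) (hSP : ∀ p ∈ U, p ∉ SP) :
    (SS : ℝ) * ∑ p ∈ U, (ww p + pr T p) + (SS : ℝ) * (1 / ((t : ℝ) * (t - 1))) ≤
      ((lossz (decide (7 ∈ T)) (decide (5 ∈ T)) t + θz +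
        Fz (decide (7 ∈ T)) (decide (5 ∈ T)) t : ℕ) : ℝ) := by
  have h5 := G.geT t ht
  have hp2 : ∀ p ∈ U, 2 ≤ p := fun p hp => (G.prime p (hUR hp)).two_le
  rcases Nat.lt_or_ge t 601 with h6 | h6
  · have hy := yz_ge (t := t) (by omega)
    have hs := sum_Hz T hp2
    rcases Nat.lt_or_ge t 7 with h7 | h7
    · have h8 : t = 5 := by
        have h9 : t ≠ 6 := by
          rintro rfl
          exact absurd (G.primeT 6 ht) (by norm_num)
        omega
      subst h8
      have h9 := class_five G ht hUR hU hX (fun p hp => by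
        have := hSP p hp
        constructor
        · rintro rfl
          exact this (by decide)
        · rintro rfl
          exact this (by decide))
      have h10 : ((∑ p ∈ U, Hz p : ℕ) : ℝ) ≤ (g5 : ℝ) := by exact_mod_cast h9
      have h11 : g5 + yz 5 ≤ lossz (decide (7 ∈ T)) (decide (5 ∈ T)) 5 + θz +
          Fz (decide (7 ∈ T)) (decide (5 ∈ T)) 5 := by
        unfold Fz
        rw [if_pos rfl]
        omega
      have h12 : ((g5 + yz 5 : ℕ) : ℝ) ≤ ((lossz (decide (7 ∈ T)) (decide (5 ∈ T)) 5 + θz +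
          Fz (decide (7 ∈ T)) (decide (5 ∈ T)) 5 : ℕ) : ℝ) := by exact_mod_cast h11
      rw [Nat.cast_add] at h12
      linarith
    · obtain ⟨e, he, h8, h9⟩ := class_tab G ht h7 h6 hUR hU hX
      have h10 : ((∑ p ∈ U, Hz p : ℕ) : ℝ) ≤
          ((e.2.2.2.1 + if 7 ∈ T then e.2.2.2.2 else 0 : ℕ) : ℝ) := by exact_mod_cast h9
      have h11 := le_list_sum (we (decide (7 ∈ T)) (decide (5 ∈ T))) he
      rw [h8] at h11
      have h12 : e.2.2.2.1 + (if 7 ∈ T then e.2.2.2.2 else 0) + yz t ≤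
          lossz (decide (7 ∈ T)) (decide (5 ∈ T)) t + θz +
            we (decide (7 ∈ T)) (decide (5 ∈ T)) e := by
        unfold we
        rw [h8]
        have h13 : (decide (7 ∈ T) || !(Nat.beq t 7)) = true := by
          by_cases h14 : t = 7
          · subst h14
            rw [decide_eq_true ht, Bool.true_or]
          · have : Nat.beq t 7 = false := by
              rw [Bool.eq_false_iff]
              exact fun h15 => h14 (beq_iff.1 h15)
            rw [this, Bool.not_false, Bool.or_true]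
        rw [h13, cond_true]
        have h15 : (bif decide (7 ∈ T) then e.2.2.2.2 else 0) =
            if 7 ∈ T then e.2.2.2.2 else 0 := by
          by_cases h16 : 7 ∈ T
          · rw [decide_eq_true h16, if_pos h16, cond_true]
          · rw [decide_eq_false h16, if_neg h16, cond_false]
        rw [h15]
        omega
      have h13 : e.2.2.2.1 + (if 7 ∈ T then e.2.2.2.2 else 0) + yz t ≤
          lossz (decide (7 ∈ T)) (decide (5 ∈ T)) t + θz +
            Fz (decide (7 ∈ T)) (decide (5 ∈ T)) t := by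
        unfold Fz
        omega
      have h14 : ((e.2.2.2.1 + (if 7 ∈ T then e.2.2.2.2 else 0) + yz t : ℕ) : ℝ) ≤
          ((lossz (decide (7 ∈ T)) (decide (5 ∈ T)) t + θz +
            Fz (decide (7 ∈ T)) (decide (5 ∈ T)) t : ℕ) : ℝ) := by exact_mod_cast h13
      rw [Nat.cast_add _ (yz t)] at h14
      linarith
  · have h7 := class_big G ht h6 hUR hU hX
    have h8 : (SS : ℝ) * (1 / ((t : ℝ) * (t - 1))) ≤ 8000000 := by
      have h9 : (601 : ℝ) ≤ t := by exact_mod_cast h6
      rw [SS_cast, mul_one_div, div_le_iff₀ (by nlinarith)]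
      nlinarith
    have h9 : (θz : ℝ) ≤ ((lossz (decide (7 ∈ T)) (decide (5 ∈ T)) t + θz +
        Fz (decide (7 ∈ T)) (decide (5 ∈ T)) t : ℕ) : ℝ) := by
      push_cast
      have h10 : (0 : ℝ) ≤ lossz (decide (7 ∈ T)) (decide (5 ∈ T)) t := Nat.cast_nonneg _
      have h11 : (0 : ℝ) ≤ Fz (decide (7 ∈ T)) (decide (5 ∈ T)) t := Nat.cast_nonneg _
      linarith
    have h10 : (θz : ℝ) = 6440000000 := by norm_num [θz]
    linarith

theorem K7_le : K7 ≤ Hz 7 := by decide +kernel

theorem K19_le : K19 ≤ Hz 19 := by decide +kernel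

/-- the elements with losses -/
def S5 : Finset ℕ := {13, 31, 19, 37, 79}

theorem loss_zero (b7 b5 : Bool) {t : ℕ} (ht : t ∉ S5) : lossz b7 b5 t = 0 := by
  simp only [S5, mem_insert, mem_singleton, not_or] at ht
  have key : ∀ a : ℕ, t ≠ a → Nat.beq t a = false := by
    intro a ha
    rw [Bool.eq_false_iff]
    exact fun h => ha (beq_iff.1 h)
  unfold lossz
  rw [key 13 ht.1, key 31 ht.2.1, key 19 ht.2.2.1, key 37 ht.2.2.2.1, key 79 ht.2.2.2.2]
  rfl

theorem loss_sum (b7 b5 : Bool) (T : Finset ℕ) : ∑ t ∈ T, lossz b7 b5 t =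
    (if 13 ∈ T then (bif b7 then 0 else Hz 7 - K7) else 0) + ((if 31 ∈ T then Hz 31 else 0) +
    ((if 19 ∈ T then (bif b5 then K19 else 0) else 0) +
    ((if 37 ∈ T then (bif b5 then Hz 19 - K19 else 0) else 0) +
    (if 79 ∈ T then (bif b5 then Hz 79 else 0) else 0)))) := by
  classical
  have h1 : ∑ t ∈ T, lossz b7 b5 t = ∑ t ∈ T.filter (fun t => t ∈ S5), lossz b7 b5 t := by
    rw [Finset.sum_filter]
    refine Finset.sum_congr rfl fun t _ => ?_
    split_ifs with h
    · rfl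
    · exact loss_zero b7 b5 h
  have h2 : T.filter (fun t => t ∈ S5) = S5.filter (fun t => t ∈ T) := by
    ext t
    rw [mem_filter, mem_filter, and_comm]
  have bt : ∀ a, Nat.beq a a = true := fun a => beq_iff.2 rfl
  have bf : ∀ a b, a ≠ b → Nat.beq a b = false := by
    intro a b h
    rw [Bool.eq_false_iff]
    exact fun h2 => h (beq_iff.1 h2)
  have e13 : lossz b7 b5 13 = bif b7 then 0 else Hz 7 - K7 := by
    unfold lossz
    rw [bt, cond_true]
  have e31 : lossz b7 b5 31 = Hz 31 := by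
    unfold lossz
    rw [bf 31 13 (by norm_num), bt, cond_false, cond_true]
  have e19 : lossz b7 b5 19 = bif b5 then K19 else 0 := by
    unfold lossz
    rw [bf 19 13 (by norm_num), bf 19 31 (by norm_num), bt, cond_false, cond_false, cond_true]
  have e37 : lossz b7 b5 37 = bif b5 then Hz 19 - K19 else 0 := by
    unfold lossz
    rw [bf 37 13 (by norm_num), bf 37 31 (by norm_num), bf 37 19 (by norm_num), bt, cond_false,
      cond_false, cond_false, cond_true]
  have e79 : lossz b7 b5 79 = bif b5 then Hz 79 else 0 := by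
    unfold lossz
    rw [bf 79 13 (by norm_num), bf 79 31 (by norm_num), bf 79 19 (by norm_num),
      bf 79 37 (by norm_num), bt, cond_false, cond_false, cond_false, cond_false, cond_true]
  rw [h1, h2, Finset.sum_filter, S5, Finset.sum_insert (by decide), Finset.sum_insert (by decide),
    Finset.sum_insert (by decide), Finset.sum_insert (by decide), Finset.sum_singleton,
    e13, e31, e19, e37, e79]

theorem bb_sum (T : Finset ℕ) : ∑ p ∈ SP, bb T p =
    (if 7 ∈ T then 0 else if 13 ∈ T then K7 else Hz 7) + ((if 31 ∈ T then 0 else Hz 31) +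
    (Hz 127 + (Hz 8191 + (Hz 131071 + (Hz 524287 +
    ((if 5 ∈ T ∧ 19 ∉ T then (if 37 ∈ T then K19 else Hz 19) else 0) +
    (if 5 ∈ T ∧ 79 ∉ T then Hz 79 else 0))))))) := by
  have key : ∀ p, p ≠ 7 → p ≠ 31 → p ≠ 19 → p ≠ 79 → bb T p = Hz p := by
    intro p h1 h2 h3 h4
    unfold bb
    rw [if_neg h1, if_neg h2, if_neg h3, if_neg h4]
  rw [SP, Finset.sum_insert (by decide), Finset.sum_insert (by decide),
    Finset.sum_insert (by decide), Finset.sum_insert (by decide), Finset.sum_insert (by decide),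
    Finset.sum_insert (by decide), Finset.sum_insert (by decide), Finset.sum_singleton,
    key 127 (by norm_num) (by norm_num) (by norm_num) (by norm_num),
    key 8191 (by norm_num) (by norm_num) (by norm_num) (by norm_num),
    key 131071 (by norm_num) (by norm_num) (by norm_num) (by norm_num),
    key 524287 (by norm_num) (by norm_num) (by norm_num) (by norm_num)]
  have e7 : bb T 7 = if 7 ∈ T then 0 else if 13 ∈ T then K7 else Hz 7 := by
    unfold bb
    rw [if_pos rfl]
  have e31 : bb T 31 = if 31 ∈ T then 0 else Hz 31 := by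
    unfold bb
    rw [if_neg (by norm_num), if_pos rfl]
  have e19 : bb T 19 = if 5 ∈ T ∧ 19 ∉ T then (if 37 ∈ T then K19 else Hz 19) else 0 := by
    unfold bb
    rw [if_neg (by norm_num), if_neg (by norm_num), if_pos rfl]
  have e79 : bb T 79 = if 5 ∈ T ∧ 79 ∉ T then Hz 79 else 0 := by
    unfold bb
    rw [if_neg (by norm_num), if_neg (by norm_num), if_neg (by norm_num), if_pos rfl]
  rw [e7, e31, e19, e79]

theorem bb_loss (T : Finset ℕ) : ∑ p ∈ SP, bb T p +
    ∑ t ∈ T, lossz (decide (7 ∈ T)) (decide (5 ∈ T)) t ≤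
      Cz (decide (7 ∈ T)) (decide (5 ∈ T)) := by
  rw [bb_sum, loss_sum, Cz]
  have h1 := K7_le
  have h2 := K19_le
  have hA : (if 7 ∈ T then 0 else if 13 ∈ T then K7 else Hz 7) +
      (if 13 ∈ T then (bif decide (7 ∈ T) then 0 else Hz 7 - K7) else 0) ≤
      (bif decide (7 ∈ T) then 0 else Hz 7) := by
    by_cases h7 : 7 ∈ T <;> by_cases h13 : 13 ∈ T <;>
      simp only [h7, h13, if_true, if_false, decide_true, decide_false, cond_true, cond_false] <;>
      omega
  have hB : (if 31 ∈ T then 0 else Hz 31) + (if 31 ∈ T then Hz 31 else 0) ≤ Hz 31 := by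
    by_cases h31 : 31 ∈ T <;> simp only [h31, if_true, if_false] <;> omega
  have hC : (if 5 ∈ T ∧ 19 ∉ T then (if 37 ∈ T then K19 else Hz 19) else 0) +
      ((if 19 ∈ T then (bif decide (5 ∈ T) then K19 else 0) else 0) +
      (if 37 ∈ T then (bif decide (5 ∈ T) then Hz 19 - K19 else 0) else 0)) +
      ((if 5 ∈ T ∧ 79 ∉ T then Hz 79 else 0) +
      (if 79 ∈ T then (bif decide (5 ∈ T) then Hz 79 else 0) else 0)) ≤
      (bif decide (5 ∈ T) then Hz 19 + Hz 79 else 0) := by
    by_cases h5 : 5 ∈ T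
    · simp only [h5, decide_true, cond_true, true_and]
      have hD : (if 79 ∉ T then Hz 79 else 0) + (if 79 ∈ T then Hz 79 else 0) ≤ Hz 79 := by
        by_cases h79 : 79 ∈ T <;>
          simp only [h79, if_true, if_false, not_true, not_false_iff] <;> omega
      have hE : (if 19 ∉ T then (if 37 ∈ T then K19 else Hz 19) else 0) +
          ((if 19 ∈ T then K19 else 0) + (if 37 ∈ T then Hz 19 - K19 else 0)) ≤ Hz 19 := by
        by_cases h19 : 19 ∈ T <;> by_cases h37 : 37 ∈ T <;>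
          simp only [h19, h37, if_true, if_false, not_true, not_false_iff] <;> omega
      omega
    · simp [h5]
  omega

/-- the main theorem -/
theorem main {n : ℕ} (hn : n ≠ 0) (h3 : ¬ 3 ∣ n) (h : sigE n = 2 * n) : 15 ≤ (TT n).card := by
  classical
  by_contra hlt
  have hc : (TT n).card ≤ 14 := by omega
  have G := good hn h3 h
  have h1 := log_le hn h
  have h2 := rho_large (small hn h3 h hc)
  have hA : ∀ p ∈ AA n, p.Prime ∧ p % 3 = 1 :=
    fun p hp => ⟨(mem_AA.1 hp).1, AA_mod hn h3 h hp⟩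
  have hAT : ∀ p ∈ AA n, p ∉ TT n := by
    intro p hp hT
    have h4 := (mem_AA.1 hp).2.2
    have h5 := (mem_TT.1 hT).2.2
    omega
  have h4 := pot (AA n) (TT n) hA hAT (fun q hq => hit_card hn h hq)
  change _ ≤ ∑ p ∈ RR n, (ww p + pr (TT n) p) at h4
  generalize RR n = R at G h4
  generalize TT n = T at G h4 h1 hc
  have hnn : ∀ p ∈ R, 0 ≤ ww p + pr T p := fun p hp =>
    add_nonneg (ww_nonneg p) (pr_nonneg T (G.prime p hp).two_le)
  obtain ⟨U, hU, h5⟩ := small_split G (fun p => ww p + pr T p) hnn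
  have h6 := tail_le G hc (R.filter (fun p => ¬ p + 1 ≤ 2 * XH)) (Finset.filter_subset _ _)
    (fun p hp => by
      have := (mem_filter.1 hp).2
      rw [XH] at this
      norm_num
      omega)
  rw [← Finset.sum_filter_add_sum_filter_not R (fun p => p + 1 ≤ 2 * XH)] at h4
  have h7 : (SS : ℝ) * ∑ p ∈ R.filter (fun p => p ∈ SP), (ww p + pr T p) ≤
      ((∑ p ∈ SP, bb T p : ℕ) : ℝ) := by
    have h8 : ∑ p ∈ R.filter (fun p => p ∈ SP), bb T p ≤ ∑ p ∈ SP, bb T p :=
      Finset.sum_le_sum_of_subset (fun p hp => (mem_filter.1 hp).2)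
    have h9 : ((∑ p ∈ R.filter (fun p => p ∈ SP), bb T p : ℕ) : ℝ) ≤
        ((∑ p ∈ SP, bb T p : ℕ) : ℝ) := by exact_mod_cast h8
    refine le_trans ?_ h9
    rw [Finset.mul_sum, Nat.cast_sum]
    exact Finset.sum_le_sum fun p hp => bb_ge G (mem_filter.1 hp).1
  have h8 : (SS : ℝ) * ∑ t ∈ T, ∑ p ∈ U t, (ww p + pr T p) +
      (SS : ℝ) * ∑ t ∈ T, 1 / ((t : ℝ) * (t - 1)) ≤
      ((∑ t ∈ T, (lossz (decide (7 ∈ T)) (decide (5 ∈ T)) t + θz +
        Fz (decide (7 ∈ T)) (decide (5 ∈ T)) t) : ℕ) : ℝ) := by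
    rw [Finset.mul_sum, Finset.mul_sum, ← Finset.sum_add_distrib, Nat.cast_sum]
    refine Finset.sum_le_sum fun t ht => ?_
    obtain ⟨h9, h10, h11, h12⟩ := hU t ht
    exact one_class G ht h9 h10 h11 h12
  have h9 : ∑ t ∈ T, (lossz (decide (7 ∈ T)) (decide (5 ∈ T)) t + θz +
        Fz (decide (7 ∈ T)) (decide (5 ∈ T)) t) ≤
      ∑ t ∈ T, lossz (decide (7 ∈ T)) (decide (5 ∈ T)) t + 14 * θz +
        ((TB.map (we (decide (7 ∈ T)) (decide (5 ∈ T)))).sum +
        (bif decide (5 ∈ T) then g5 + yz 5 - θz else 0)) := by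
    rw [Finset.sum_add_distrib, Finset.sum_add_distrib, Finset.sum_const, smul_eq_mul]
    refine add_le_add (add_le_add le_rfl (Nat.mul_le_mul_right _ hc)) ?_
    unfold Fz
    rw [Finset.sum_add_distrib]
    refine add_le_add (list_sum_le T TB _) ?_
    rw [Finset.sum_ite_eq']
    by_cases h5 : 5 ∈ T
    · rw [if_pos h5, decide_eq_true h5, cond_true]
    · rw [if_neg h5]
      exact Nat.zero_le _
  have h10 := bb_loss T
  have h11 := final_check (decide (7 ∈ T)) (decide (5 ∈ T))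
  have h12 : (SS : ℝ) * (if 7 ∈ T then 0.0295 else 0.0211) =
      ((bif decide (7 ∈ T) then 29500000000 else 21100000000 : ℕ) : ℝ) := by
    rw [SS_cast]
    by_cases h7 : 7 ∈ T
    · rw [if_pos h7, decide_eq_true h7, cond_true]
      norm_num
    · rw [if_neg h7, decide_eq_false h7, cond_false]
      norm_num
  generalize (bif decide (7 ∈ T) then 29500000000 else 21100000000 : ℕ) = tl at h11 h12
  generalize (TB.map (we (decide (7 ∈ T)) (decide (5 ∈ T)))).sum = A1 at h9 h11
  generalize (bif decide (5 ∈ T) then g5 + yz 5 - θz else 0) = A2 at h9 h11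
  generalize Cz (decide (7 ∈ T)) (decide (5 ∈ T)) = A3 at h10 h11
  generalize ∑ t ∈ T, lossz (decide (7 ∈ T)) (decide (5 ∈ T)) t = A4 at h9 h10
  generalize ∑ p ∈ SP, bb T p = A5 at h7 h10
  generalize ∑ t ∈ T, (lossz (decide (7 ∈ T)) (decide (5 ∈ T)) t + θz +
        Fz (decide (7 ∈ T)) (decide (5 ∈ T)) t) = A6 at h8 h9
  have h13 : A5 + A6 + tl + 488281251 < 693147180300 := by omega
  have h14 : (A5 : ℝ) + A6 + tl + 488281251 < 693147180300 := by exact_mod_cast h13
  have h15 := Real.log_two_gt_d9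
  have hS : (0 : ℝ) ≤ (SS : ℝ) := Nat.cast_nonneg _
  have h16 := mul_le_mul_of_nonneg_left h6 hS
  have h17 := mul_le_mul_of_nonneg_left h5 hS
  have h18 := mul_le_mul_of_nonneg_left h4 hS
  have h19 := mul_le_mul_of_nonneg_left h1 hS
  rw [h12] at h16
  rw [mul_add] at h17 h18
  rw [mul_add, mul_add] at h19
  have h20 := mul_le_mul_of_nonneg_left h2 hS
  have h21 : (SS : ℝ) * Real.log 2 > 693147180300 := by
    rw [SS_cast]
    norm_num at h15
    linarith
  have h22 : (SS : ℝ) * (1 / 2048) ≤ 488281251 := by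
    rw [SS_cast]
    norm_num
  linarith

end Pool.Agent.EP364
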