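import Pool.Agent.Lib_MP_bed364_nt.Comp
import Pool.Agent.Lib_MP_bed364_nt.Pot

/-!
# MP_bed364_nt: the computable functions are upper bounds
-/

set_option autoImplicit false

namespace Pool.Agent.EP364

open Finset

theorem ble_iff {a b : ℕ} : Nat.ble a b = true ↔ a ≤ b := by rw [Nat.ble_eq]

theorem beq_iff {a b : ℕ} : Nat.beq a b = true ↔ a = b := by rw [Nat.beq_eq]

theorem SS_cast : (SS : ℝ) = 1000000000000 := by norm_num [SS]

theorem MM_dvd : MM ∣ Nat.factorial 283 := by
  refine Nat.dvd_of_mod_eq_zero ?_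
  decide +kernel

theorem isP_of_prime {p : ℕ} (hp : p.Prime) : isP p = true := by
  unfold isP
  by_cases h : p ≤ 288
  · have h1 : Nat.ble p 288 = true := ble_iff.2 h
    rw [h1, cond_true]
    by_cases h2 : p ≤ 13
    · have h3 : Nat.ble p 13 = true := ble_iff.2 h2
      rw [h3, Bool.true_or]
    · have h3 : Nat.gcd p 30030 = 1 := by
        rw [← Nat.coprime_iff_gcd_eq_one, hp.coprime_iff_not_dvd]
        intro h4
        have h5 : (30030 : ℕ) ∣ Nat.factorial 13 := by decide
        exact h2 ((hp.dvd_factorial).1 (h4.trans h5))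
      have h4 : Nat.beq (Nat.gcd p 30030) 1 = true := beq_iff.2 h3
      rw [h4, Bool.or_true]
  · have h1 : Nat.ble p 288 = false := by
      rw [Bool.eq_false_iff]
      intro h2
      exact h (ble_iff.1 h2)
    rw [h1, cond_false]
    refine beq_iff.2 ?_
    rw [← Nat.coprime_iff_gcd_eq_one, hp.coprime_iff_not_dvd]
    intro h4
    have := (hp.dvd_factorial).1 (h4.trans MM_dvd)
    omega

theorem div_succ_ge (a b : ℕ) (hb : 0 < b) : (a : ℝ) / b ≤ ((a / b + 1 : ℕ) : ℝ) := by
  have hb' : (0 : ℝ) < b := by exact_mod_cast hb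
  rw [div_le_iff₀ hb']
  have h : a ≤ (a / b + 1) * b := by
    have := Nat.lt_div_mul_add (a := a) hb
    rw [Nat.add_mul, one_mul]
    exact this.le
  exact_mod_cast h

theorem Wz_ge {p : ℕ} (hp : 1 ≤ p) : (SS : ℝ) * ww p ≤ Wz p := by
  have hp' : (1 : ℝ) ≤ p := by exact_mod_cast hp
  have h0 : (0 : ℝ) < 1 + 1 / (p : ℝ) := by positivity
  have h1 : ww p ≤ (2 * (p : ℝ) + 1) / (2 * (p * (p + 1))) := by
    have h2 : 0 ≤ ww p := ww_nonneg p
    have h3 := Real.self_le_sinh_iff.2 h2
    have h4 : Real.sinh (ww p) = ((1 + 1 / (p : ℝ)) - (1 + 1 / (p : ℝ))⁻¹) / 2 := Real.sinh_log h0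
    rw [h4] at h3
    refine h3.trans (le_of_eq ?_)
    field_simp
    ring
  have h2 : (SS : ℝ) * ww p ≤ ((SS * (2 * p + 1) : ℕ) : ℝ) / ((2 * (p * (p + 1)) : ℕ) : ℝ) := by
    push_cast
    rw [mul_div_assoc]
    exact mul_le_mul_of_nonneg_left h1 (Nat.cast_nonneg _)
  exact h2.trans (div_succ_ge _ _ (by positivity))

theorem mx_eq (a b : ℕ) : mx a b = max a b := by
  unfold mx
  by_cases h : a ≤ b
  · have h1 : Nat.ble a b = true := ble_iff.2 h
    rw [h1, cond_true, max_eq_right h]
  · have h1 : Nat.ble a b = false := by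
      rw [Bool.eq_false_iff]
      intro h2
      exact h (ble_iff.1 h2)
    rw [h1, cond_false, max_eq_left (by omega)]

theorem Mz_ge : ∀ (d : ℕ) {q : ℕ}, 2 ≤ q → (SS : ℝ) * Mr d q ≤ Mz d q := by
  intro d
  induction d with
  | zero =>
    intro q hq
    change (SS : ℝ) * (1 / ((q : ℝ) - 1)) ≤ ((SS / (q - 1) + 1 : ℕ) : ℝ)
    have h := div_succ_ge SS (q - 1) (by omega)
    rw [Nat.cast_sub (by omega), Nat.cast_one] at h
    rw [mul_one_div]
    exact h
  | succ d ih =>
    intro q hq
    have key : ∀ a : ℕ, 2 ≤ a → (SS : ℝ) * (if (a * q - 1).Prime then ww (a * q - 1) +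
        Mr d (a * q - 1) else 0) ≤
        ((cond (isP (Nat.sub (Nat.mul a q) 1))
          (Nat.add (Wz (Nat.sub (Nat.mul a q) 1)) (Mz d (Nat.sub (Nat.mul a q) 1))) 0 : ℕ) : ℝ) := by
      intro a ha
      have h4 : 4 ≤ a * q := Nat.mul_le_mul ha hq
      have e : Nat.sub (Nat.mul a q) 1 = a * q - 1 := rfl
      rw [e]
      by_cases hp : (a * q - 1).Prime
      · rw [if_pos hp, isP_of_prime hp, cond_true]
        have h1 := Wz_ge (p := a * q - 1) (by omega)
        have h2 := ih (q := a * q - 1) (by omega)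
        have h3 : ((Nat.add (Wz (a * q - 1)) (Mz d (a * q - 1)) : ℕ) : ℝ) =
            (Wz (a * q - 1) : ℝ) + (Mz d (a * q - 1) : ℝ) := Nat.cast_add _ _
        rw [h3, mul_add]
        exact add_le_add h1 h2
      · rw [if_neg hp, mul_zero]
        exact Nat.cast_nonneg _
    have e : Mz (d + 1) q = mx (SS / (7 * q - 1) + 1)
        (mx (cond (isP (Nat.sub (Nat.mul 2 q) 1))
          (Nat.add (Wz (Nat.sub (Nat.mul 2 q) 1)) (Mz d (Nat.sub (Nat.mul 2 q) 1))) 0)
        (cond (isP (Nat.sub (Nat.mul 8 q) 1))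
          (Nat.add (Wz (Nat.sub (Nat.mul 8 q) 1)) (Mz d (Nat.sub (Nat.mul 8 q) 1))) 0)) := rfl
    rw [e, mx_eq, mx_eq, Nat.cast_max, Nat.cast_max, Mr.eq_def]
    have hS : (0 : ℝ) ≤ (SS : ℝ) := Nat.cast_nonneg _
    rw [mul_max_of_nonneg _ _ hS, mul_max_of_nonneg _ _ hS]
    refine max_le_max ?_ (max_le_max (key 2 le_rfl) (key 8 (by norm_num)))
    have h := div_succ_ge SS (7 * q - 1) (by omega)
    rw [Nat.cast_sub (by omega)] at h
    push_cast at h
    rw [mul_one_div]
    push_cast
    exact h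

theorem Hz_ge (T : Finset ℕ) {p : ℕ} (hp : 2 ≤ p) : (SS : ℝ) * (ww p + pr T p) ≤ Hz p := by
  have h1 := Wz_ge (p := p) (by omega)
  have h2 := Mz_ge 4 hp
  have h3 := pr_le T p
  have hS : (0 : ℝ) ≤ (SS : ℝ) := Nat.cast_nonneg _
  have h4 := mul_le_mul_of_nonneg_left h3 hS
  have h5 : ((Hz p : ℕ) : ℝ) = (Wz p : ℝ) + (Mz 4 p : ℝ) := Nat.cast_add _ _
  rw [h5, mul_add]
  linarith

/-- the sum over smooth numbers -/
theorem sm_ge (f : ℕ → ℕ) (t B : ℕ) : ∀ (d k : ℕ) (L : List ℕ) (m : ℕ) (S : Finset ℕ),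
    1 ≤ m → L.Pairwise (· ≤ ·) → (∀ q ∈ L, 2 ≤ q) → B < m * 2 ^ k → L.length + k ≤ d →
    (∀ j ∈ S, j ≠ 0 ∧ m * j ≤ B ∧ ∀ q, q.Prime → q ∣ j → q ≤ t ∧ q ∈ L) →
    ∑ j ∈ S, f (m * j) ≤ sm f t B d L m := by
  have single : ∀ (m : ℕ) (S : Finset ℕ), (∀ j ∈ S, j = 1) → ∑ j ∈ S, f (m * j) ≤ f m := by
    intro m S h
    have h1 : S ⊆ {1} := fun j hj => mem_singleton.2 (h j hj)
    calc ∑ j ∈ S, f (m * j) ≤ ∑ j ∈ ({1} : Finset ℕ), f (m * j) :=
          Finset.sum_le_sum_of_subset h1
      _ = f m := by rw [sum_singleton, mul_one]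
  intro d
  induction d with
  | zero =>
    intro k L m S hm _ _ hB hd hS
    have hk : k = 0 := by omega
    rw [hk, pow_zero, mul_one] at hB
    have : S = ∅ := by
      rw [Finset.eq_empty_iff_forall_notMem]
      intro j hj
      have h1 := hS j hj
      have h2 : m * 1 ≤ m * j := Nat.mul_le_mul_left m (Nat.pos_of_ne_zero h1.1)
      omega
    rw [this, sum_empty]
    exact Nat.zero_le _
  | succ d ih =>
    intro k L m S hm hL hL2 hB hd hS
    cases L with
    | nil =>
      change ∑ j ∈ S, f (m * j) ≤ f m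
      refine single m S fun j hj => ?_
      by_contra h
      obtain ⟨q, hq, hqj⟩ := Nat.exists_prime_and_dvd h
      exact absurd ((hS j hj).2.2 q hq hqj).2 (List.not_mem_nil)
    | cons q L' =>
      rw [List.pairwise_cons] at hL
      have hq2 : 2 ≤ q := hL2 q (List.mem_cons_self ..)
      change ∑ j ∈ S, f (m * j) ≤ cond (and (Nat.ble q t) (Nat.ble (Nat.mul m q) B))
        (Nat.add (sm f t B d L' m) (sm f t B d (q :: L') (Nat.mul m q))) (f m)
      by_cases hc : q ≤ t ∧ m * q ≤ B
      · have h1 : Nat.ble q t = true := ble_iff.2 hc.1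
        have h2 : Nat.ble (Nat.mul m q) B = true := ble_iff.2 hc.2
        rw [h1, h2, Bool.and_self, cond_true]
        have hk : k ≠ 0 := by
          rintro rfl
          rw [pow_zero, mul_one] at hB
          have : m * 1 ≤ m * q := Nat.mul_le_mul_left m (by omega)
          omega
        obtain ⟨k', rfl⟩ := Nat.exists_eq_succ_of_ne_zero hk
        rw [← Finset.sum_filter_add_sum_filter_not S (fun j => ¬ q ∣ j)]
        have hlen : (q :: L').length = L'.length + 1 := List.length_cons
        rw [hlen] at hd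
        refine add_le_add ?_ ?_
        · refine ih (k' + 1) L' m _ hm hL.2 (fun x hx => hL2 x (List.mem_cons_of_mem _ hx)) hB
            (by omega) ?_
          intro j hj
          rw [mem_filter] at hj
          obtain ⟨h3, h4, h5⟩ := hS j hj.1
          refine ⟨h3, h4, fun x hx hxj => ⟨(h5 x hx hxj).1, ?_⟩⟩
          rcases List.mem_cons.1 (h5 x hx hxj).2 with h6 | h6
          · exact absurd (h6 ▸ hxj) hj.2
          · exact h6
        · have h3 : ∑ j ∈ S.filter (fun j => ¬ ¬ q ∣ j), f (m * j) =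
              ∑ j ∈ (S.filter (fun j => ¬ ¬ q ∣ j)).image (fun j => j / q), f (m * q * j) := by
            rw [Finset.sum_image]
            · refine Finset.sum_congr rfl fun j hj => ?_
              rw [mem_filter, not_not] at hj
              obtain ⟨i, rfl⟩ := hj.2
              change f (m * (q * i)) = f (m * q * (q * i / q))
              rw [Nat.mul_div_cancel_left i (by omega), mul_assoc]
            · intro a ha b hb hab
              rw [mem_coe, mem_filter, not_not] at ha hb
              obtain ⟨a', ha'⟩ := ha.2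
              obtain ⟨b', hb'⟩ := hb.2
              subst ha' hb'
              have : q * a' / q = q * b' / q := hab
              rw [Nat.mul_div_cancel_left _ (by omega), Nat.mul_div_cancel_left _ (by omega)] at this
              rw [this]
          rw [h3]
          refine ih k' (q :: L') (m * q) _ ?_ (List.pairwise_cons.2 hL) hL2 ?_ ?_ ?_
          · exact Nat.mul_pos hm (by omega)
          · calc B < m * 2 ^ (k' + 1) := hB
              _ = m * 2 * 2 ^ k' := by ring
              _ ≤ m * q * 2 ^ k' := Nat.mul_le_mul_right _ (Nat.mul_le_mul_left _ hq2)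
          · rw [hlen]
            omega
          · intro j hj
            obtain ⟨i, hi, rfl⟩ := Finset.mem_image.1 hj
            rw [mem_filter, not_not] at hi
            obtain ⟨a, rfl⟩ := hi.2
            obtain ⟨h4, h5, h6⟩ := hS _ hi.1
            change q * a / q ≠ 0 ∧ m * q * (q * a / q) ≤ B ∧ ∀ x, x.Prime → x ∣ q * a / q →
              x ≤ t ∧ x ∈ q :: L'
            rw [Nat.mul_div_cancel_left _ (by omega)]
            refine ⟨fun h => h4 (by rw [h, mul_zero]), by rw [mul_assoc]; exact h5, ?_⟩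
            intro x hx hxa
            exact h6 x hx (hxa.trans (Dvd.intro_left q rfl))
      · have h1 : and (Nat.ble q t) (Nat.ble (Nat.mul m q) B) = false := by
          rw [Bool.eq_false_iff]
          intro h2
          rw [Bool.and_eq_true] at h2
          exact hc ⟨ble_iff.1 h2.1, ble_iff.1 h2.2⟩
        rw [h1, cond_false]
        refine single m S fun j hj => ?_
        obtain ⟨h3, h4, h5⟩ := hS j hj
        by_contra h
        obtain ⟨x, hx, hxj⟩ := Nat.exists_prime_and_dvd h
        obtain ⟨h6, h7⟩ := h5 x hx hxj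
        have h8 : q ≤ x := by
          rcases List.mem_cons.1 h7 with h9 | h9
          · exact h9.ge
          · exact hL.1 x h9
        have h9 : x ≤ j := Nat.le_of_dvd (Nat.pos_of_ne_zero h3) hxj
        have h10 : m * q ≤ m * j := Nat.mul_le_mul_left m (h8.trans h9)
        exact hc ⟨h8.trans h6, h10.trans h4⟩

end Pool.Agent.EP364
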