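import Pool.Agent.Lib_MP_bed364_nt.Facts
import Pool.Agent.Lib_MP_bed364_nt.Num

/-!
# MP_bed364_nt: the roots
-/

set_option autoImplicit false

namespace Pool.Agent.EP364

open Finset

/-- the roots -/
def RR (n : ℕ) : Finset ℕ := (AA n).filter fun p => ∀ q ∈ AA n, ¬ q ∣ p + 1

/-- the facts about the pair `n`, `T` which are used -/
structure Good (n : ℕ) (R T : Finset ℕ) : Prop where
  prime : ∀ p ∈ R, p.Prime
  mod : ∀ p ∈ R, p % 3 = 1
  notMem : ∀ p ∈ R, p ∉ T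
  hit : ∀ p ∈ R, ∀ q, q.Prime → q ≠ 2 → q ∣ p + 1 → q ∈ T
  primeT : ∀ t ∈ T, t.Prime
  geT : ∀ t ∈ T, 5 ≤ t

theorem mersenne {p k : ℕ} (hp : p.Prime) (hp3 : p % 3 = 1) (h : p + 1 = 2 ^ k) (hk : k ≤ 24) :
    p = 7 ∨ p = 31 ∨ p = 127 ∨ p = 8191 ∨ p = 131071 ∨ p = 524287 := by
  have h1 : p = 2 ^ k - 1 := by omega
  subst h1
  clear h
  interval_cases k <;> revert hp hp3 <;> norm_num

theorem pow_of {x : ℕ} (hx : x ≠ 0) (h : ∀ q, q.Prime → q ∣ x → q = 2) : ∃ k, x = 2 ^ k :=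
  ⟨_, Nat.eq_prime_pow_of_unique_prime_dvd hx (fun {d} hd hdx => h d hd hdx)⟩

theorem exists_top {n p : ℕ} {R T : Finset ℕ} (G : Good n R T) (hp : p ∈ R)
    (hm : ∀ k, p + 1 ≠ 2 ^ k) :
    ∃ t ∈ T, t ∣ p + 1 ∧ ∀ q, q.Prime → q ∣ p + 1 → q ≤ t := by
  have hp2 := (G.prime p hp).two_le
  have hne : (p + 1).primeFactors.Nonempty := by
    rw [Nat.nonempty_primeFactors]
    omega
  obtain ⟨t, ht, hmax⟩ := Finset.exists_max_image (p + 1).primeFactors id hne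
  have htp := Nat.prime_of_mem_primeFactors ht
  have htd := Nat.dvd_of_mem_primeFactors ht
  have hle : ∀ q, q.Prime → q ∣ p + 1 → q ≤ t := by
    intro q hq hqd
    exact hmax q (Nat.mem_primeFactors.2 ⟨hq, hqd, by omega⟩)
  refine ⟨t, G.hit p hp t htp ?_ htd, htd, hle⟩
  rintro rfl
  obtain ⟨k, hk⟩ := pow_of (x := p + 1) (by omega) (fun q hq hqd => by
    have h1 := hle q hq hqd
    have h2 := hq.two_le
    omega)
  exact hm k hk

theorem quot {n p t : ℕ} {R T : Finset ℕ} (G : Good n R T) (hp : p ∈ R) (ht : t ∈ T)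
    (h : t ∣ p + 1) : ∃ j, p + 1 = 2 * (t * j) ∧ j % 3 = t % 3 ∧ j ≠ 0 := by
  have hpp := G.prime p hp
  have hp3 := G.mod p hp
  have htp := G.primeT t ht
  have ht5 := G.geT t ht
  have hodd : p % 2 = 1 := (hpp.eq_two_or_odd).resolve_left (by rintro rfl; norm_num at hp3)
  have h2 : 2 ∣ p + 1 := by omega
  have hcop : Nat.Coprime 2 t := by
    rw [Nat.coprime_primes Nat.prime_two htp]
    omega
  obtain ⟨j, hj⟩ := hcop.mul_dvd_of_dvd_of_dvd h2 h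
  refine ⟨j, by rw [hj, mul_assoc], ?_, by rintro rfl; omega⟩
  have ht3 : t % 3 ≠ 0 := by
    intro h3
    have := (Nat.prime_dvd_prime_iff_eq Nat.prime_three htp).1 (Nat.dvd_of_mod_eq_zero h3)
    omega
  have h3 : (2 * t * j) % 3 = 2 := by rw [← hj]; omega
  have h4 : (2 * t * j) % 3 = (2 * ((t % 3) * (j % 3) % 3)) % 3 := by
    rw [Nat.mul_assoc, Nat.mul_mod 2 (t * j) 3, Nat.mul_mod t j 3]
  rw [h4] at h3
  have h5 : t % 3 < 3 := Nat.mod_lt _ (by norm_num)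
  have h6 : j % 3 < 3 := Nat.mod_lt _ (by norm_num)
  generalize t % 3 = a at *
  generalize j % 3 = b at *
  interval_cases a <;> interval_cases b <;> omega

/-- the sum over smooth quotients -/
theorem sum_sm (f : ℕ → ℕ) (t m B : ℕ) (L : List ℕ) (U : Finset ℕ) (g : ℕ → ℕ) (hm : 1 ≤ m)
    (hL : L.Pairwise (· ≤ ·)) (hL2 : ∀ q ∈ L, 2 ≤ q) (hB : B < m * 2 ^ 24)
    (hlen : L.length + 24 ≤ 132) (hg : Set.InjOn g U)
    (hU : ∀ p ∈ U, Hz p ≤ f (m * g p) ∧ g p ≠ 0 ∧ m * g p ≤ B ∧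
      ∀ q, q.Prime → q ∣ g p → q ≤ t ∧ q ∈ L) :
    ∑ p ∈ U, Hz p ≤ sm f t B 132 L m := by
  calc ∑ p ∈ U, Hz p ≤ ∑ p ∈ U, f (m * g p) := Finset.sum_le_sum fun p hp => (hU p hp).1
    _ = ∑ j ∈ U.image g, f (m * j) := by rw [Finset.sum_image hg]
    _ ≤ sm f t B 132 L m := by
        refine sm_ge f t B 132 24 L m _ hm hL hL2 hB hlen ?_
        intro j hj
        obtain ⟨p, hp, rfl⟩ := Finset.mem_image.1 hj
        exact (hU p hp).2

/-- the class of `t` -/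
def Top (t p : ℕ) : Prop := t ∣ p + 1 ∧ ∀ q, q.Prime → q ∣ p + 1 → q ≤ t

theorem quot_eq {p t j : ℕ} (ht : 0 < t) (h : p + 1 = 2 * (t * j)) : (p + 1) / (2 * t) = j := by
  rw [h, ← mul_assoc]
  exact Nat.mul_div_cancel_left j (by omega)

theorem leafT_eq {p t j : ℕ} (hp : p.Prime) (h : p + 1 = 2 * (t * j)) (hj : j % 3 = t % 3) :
    Hz p ≤ leafT t (t % 3) j := by
  unfold leafT
  have h1 : Nat.beq (Nat.mod j 3) (t % 3) = true := beq_iff.2 hj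
  have h2 : Nat.sub (Nat.mul 2 (Nat.mul t j)) 1 = p := by
    change 2 * (t * j) - 1 = p
    omega
  rw [h1, h2, cond_true, isP_of_prime hp, cond_true]

theorem seven_mod (j : ℕ) : (7 * j) % 3 = j % 3 := by omega

/-- the class of `t`: quotients not divisible by `7` -/
theorem class0 {n t : ℕ} {R T U : Finset ℕ} (G : Good n R T) (ht : t ∈ T) (B : ℕ) (L : List ℕ)
    (hL : L.Pairwise (· ≤ ·)) (hL2 : ∀ q ∈ L, 2 ≤ q) (hB : B < 2 ^ 24)
    (hlen : L.length + 24 ≤ 132) (hUR : U ⊆ R) (hU : ∀ p ∈ U, Top t p)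
    (h7 : ∀ p ∈ U, ¬ 7 ∣ (p + 1) / (2 * t)) (hX : ∀ p ∈ U, p + 1 ≤ 2 * (t * B) + (2 * t - 1))
    (hLq : ∀ q, q.Prime → q ≤ t → q ≠ 3 → q ≠ 7 → q ∈ L) :
    ∑ p ∈ U, Hz p ≤ sm (leafT t (t % 3)) t B 132 L 1 := by
  have ht0 := (G.primeT t ht).pos
  refine sum_sm _ t 1 B L U (fun p => (p + 1) / (2 * t)) le_rfl hL hL2 (by omega) hlen ?_ ?_
  · intro p hp p' hp' he
    obtain ⟨j, hj, _⟩ := quot G (hUR hp) ht (hU p hp).1
    obtain ⟨j', hj', _⟩ := quot G (hUR hp') ht (hU p' hp').1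
    change (p + 1) / (2 * t) = (p' + 1) / (2 * t) at he
    rw [quot_eq ht0 hj, quot_eq ht0 hj'] at he
    subst he
    omega
  · intro p hp
    obtain ⟨j, hj, hj3, hj0⟩ := quot G (hUR hp) ht (hU p hp).1
    have h1 := h7 p hp
    change Hz p ≤ leafT t (t % 3) (1 * ((p + 1) / (2 * t))) ∧ (p + 1) / (2 * t) ≠ 0 ∧
      1 * ((p + 1) / (2 * t)) ≤ B ∧ ∀ q, q.Prime → q ∣ (p + 1) / (2 * t) → q ≤ t ∧ q ∈ L
    rw [quot_eq ht0 hj] at h1 ⊢
    rw [one_mul]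
    refine ⟨leafT_eq (G.prime p (hUR hp)) hj hj3, hj0, ?_, ?_⟩
    · have h2 := hX p hp
      rw [hj] at h2
      by_contra h3
      have h4 : t * (B + 1) ≤ t * j := Nat.mul_le_mul_left t (by omega)
      rw [Nat.mul_add, mul_one] at h4
      omega
    · intro q hq hqj
      have h2 : q ∣ p + 1 := by
        rw [hj]
        exact (hqj.mul_left t).mul_left 2
      have h3 := (hU p hp).2 q hq h2
      refine ⟨h3, hLq q hq h3 ?_ ?_⟩
      · rintro rfl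
        have := G.mod p (hUR hp)
        omega
      · rintro rfl
        exact h1 hqj

/-- the class of `t`: quotients divisible by `7` -/
theorem class7 {n t : ℕ} {R T U : Finset ℕ} (G : Good n R T) (ht : t ∈ T) (B : ℕ) (L : List ℕ)
    (hL : L.Pairwise (· ≤ ·)) (hL2 : ∀ q ∈ L, 2 ≤ q) (hB : B < 2 ^ 24)
    (hlen : L.length + 24 ≤ 132) (hUR : U ⊆ R) (hU : ∀ p ∈ U, Top t p)
    (h7 : ∀ p ∈ U, 7 ∣ (p + 1) / (2 * t)) (hX : ∀ p ∈ U, p + 1 ≤ 2 * (t * B) + (2 * t - 1))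
    (hLq : ∀ q, q.Prime → q ≤ t → q ≠ 3 → q ∈ L) :
    ∑ p ∈ U, Hz p ≤ sm (leafT t (t % 3)) t B 132 L 7 := by
  have ht0 := (G.primeT t ht).pos
  have key : ∀ p ∈ U, ∃ i, p + 1 = 2 * (t * (7 * i)) ∧ (7 * i) % 3 = t % 3 ∧ i ≠ 0 ∧
      (p + 1) / (2 * t) / 7 = i := by
    intro p hp
    obtain ⟨j, hj, hj3, hj0⟩ := quot G (hUR hp) ht (hU p hp).1
    have h1 := h7 p hp
    rw [quot_eq ht0 hj] at h1
    obtain ⟨i, rfl⟩ := h1
    refine ⟨i, hj, hj3, by rintro rfl; exact hj0 rfl, ?_⟩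
    rw [quot_eq ht0 hj]
    exact Nat.mul_div_cancel_left i (by norm_num)
  refine sum_sm _ t 7 B L U (fun p => (p + 1) / (2 * t) / 7) (by norm_num) hL hL2 (by omega)
    hlen ?_ ?_
  · intro p hp p' hp' he
    obtain ⟨i, hi, _, _, hi2⟩ := key p hp
    obtain ⟨i', hi', _, _, hi2'⟩ := key p' hp'
    change (p + 1) / (2 * t) / 7 = (p' + 1) / (2 * t) / 7 at he
    rw [hi2, hi2'] at he
    subst he
    omega
  · intro p hp
    obtain ⟨i, hi, hi3, hi0, hi2⟩ := key p hp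
    rw [hi2]
    refine ⟨leafT_eq (G.prime p (hUR hp)) hi hi3, hi0, ?_, ?_⟩
    · have h2 := hX p hp
      rw [hi] at h2
      by_contra h3
      have h4 : t * (B + 1) ≤ t * (7 * i) := Nat.mul_le_mul_left t (by omega)
      rw [Nat.mul_add, mul_one] at h4
      omega
    · intro q hq hqj
      have h2 : q ∣ p + 1 := by
        rw [hi]
        exact ((hqj.mul_left 7).mul_left t).mul_left 2
      have h3 := (hU p hp).2 q hq h2
      refine ⟨h3, hLq q hq h3 ?_⟩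
      rintro rfl
      have := G.mod p (hUR hp)
      omega

end Pool.Agent.EP364
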