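import Pool.Agent.Lib_MP_bed364_nt.Facts

/-!
# MP_bed364_nt: the case `v_2(n) ≤ 23`
-/

set_option autoImplicit false

namespace Pool.Agent.EP364

open Finset

/-- the threshold bound -/
theorem sum_threshold (T P : Finset ℕ) (f : ℕ → ℝ) (θ : ℝ) (K : ℕ) (hθ : 0 ≤ θ)
    (hcard : T.card ≤ K) (h1 : ∀ t ∈ T, t ∉ P → f t ≤ θ) (hP : ∀ t ∈ P, θ ≤ f t) :
    ∑ t ∈ T, f t ≤ K * θ + ∑ t ∈ P, (f t - θ) := by
  classical
  have h2 : ∑ t ∈ T, f t = T.card * θ + ∑ t ∈ T, (f t - θ) := by
    rw [Finset.sum_sub_distrib, Finset.sum_const, nsmul_eq_mul]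
    ring
  have h3 : ∑ t ∈ T, (f t - θ) ≤ ∑ t ∈ T.filter (fun t => t ∈ P), (f t - θ) := by
    rw [Finset.sum_filter]
    refine Finset.sum_le_sum fun t ht => ?_
    split_ifs with h4
    · exact le_rfl
    · linarith [h1 t ht h4]
  have h4 : ∑ t ∈ T.filter (fun t => t ∈ P), (f t - θ) ≤ ∑ t ∈ P, (f t - θ) := by
    refine Finset.sum_le_sum_of_subset_of_nonneg ?_ ?_
    · intro t ht
      exact (mem_filter.1 ht).2
    · intro t ht _
      linarith [hP t ht]
  have h5 : (T.card : ℝ) * θ ≤ K * θ :=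
    mul_le_mul_of_nonneg_right (by exact_mod_cast hcard) hθ
  linarith

/-- the first ten primes `≥ 5` -/
def P10 : Finset ℕ := {5, 7, 11, 13, 17, 19, 23, 29, 31, 37}

theorem TT_ge {n t : ℕ} (h3 : ¬ 3 ∣ n) (ht : t ∈ TT n) : t.Prime ∧ 5 ≤ t := by
  obtain ⟨h1, h2, h4⟩ := mem_TT.1 ht
  refine ⟨h1, ?_⟩
  have h5 : t ≠ 3 := by
    rintro rfl
    apply h3
    apply Nat.dvd_of_factorization_pos
    omega
  have h6 : t ≠ 4 := by
    rintro rfl
    exact absurd h1 (by norm_num)
  have := h1.two_le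
  omega

theorem sum_TT {n : ℕ} (h3 : ¬ 3 ∣ n) (hc : (TT n).card ≤ 14) :
    ∑ t ∈ TT n, 1 / ((t : ℝ) * (t - 1)) ≤ 1036 / 10000 := by
  have h := sum_threshold (TT n) P10 (fun t => 1 / ((t : ℝ) * (t - 1))) (1 / 1640) 14
    (by norm_num) hc ?_ ?_
  · refine h.trans ?_
    simp only [P10]
    norm_num
  · intro t ht htP
    obtain ⟨h1, h5⟩ := TT_ge h3 ht
    have h6 : 41 ≤ t := by
      by_contra h7
      have h8 : t < 41 := by omega
      revert h1 htP
      interval_cases t <;> simp [P10] <;> norm_num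
    have h7 : (41 : ℝ) ≤ t := by exact_mod_cast h6
    refine one_div_le_one_div_of_le (by norm_num) ?_
    nlinarith
  · intro t ht
    have h1 : 5 ≤ t ∧ t ≤ 37 := by
      revert t
      decide
    have h7 : (5 : ℝ) ≤ t := by exact_mod_cast h1.1
    have h8 : (t : ℝ) ≤ 37 := by exact_mod_cast h1.2
    refine one_div_le_one_div_of_le (by nlinarith) ?_
    nlinarith

/-- the excess -/
noncomputable def ee (p : ℕ) : ℝ :=
  if p = 7 then 1 / 7 - 3 * (137 / 10000) else if p = 13 then 1 / 13 - (137 / 10000)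
  else if p = 19 then 1 / 19 - 2 * (137 / 10000) else if p = 37 then 1 / 37 - (137 / 10000)
  else if p = 61 then 1 / 61 - (137 / 10000) else 0

theorem le_fact {m c : ℕ} (hm : m ≠ 0) (h : 2 ^ c ∣ m) : (c : ℝ) ≤ (m.factorization 2 : ℕ) := by
  have := (Nat.prime_two.pow_dvd_iff_le_factorization hm).1 h
  exact_mod_cast this

theorem ww_ee {p : ℕ} (hp : p.Prime) (hp3 : p % 3 = 1) :
    ww p ≤ (137 / 10000) * ((p + 1).factorization 2 : ℕ) + ee p := by
  have h1 := ww_le hp.one_le
  have hodd : p % 2 = 1 := (hp.eq_two_or_odd).resolve_left (by rintro rfl; norm_num at hp3)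
  have h2 : (1 : ℝ) ≤ ((p + 1).factorization 2 : ℕ) := by
    have := le_fact (m := p + 1) (c := 1) (by omega) (by omega)
    exact_mod_cast this
  rcases Nat.lt_or_ge p 73 with h3 | h3
  · have h4 : p = 7 ∨ p = 13 ∨ p = 19 ∨ p = 31 ∨ p = 37 ∨ p = 43 ∨ p = 61 ∨ p = 67 := by
      revert hp hp3
      clear h1 h2 hodd
      interval_cases p <;> norm_num
    rcases h4 with rfl | rfl | rfl | rfl | rfl | rfl | rfl | rfl
    · have h5 := le_fact (m := 7 + 1) (c := 3) (by omega) (by norm_num)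
      generalize (((7 + 1).factorization 2 : ℕ) : ℝ) = x at h5 ⊢
      simp only [ee]
      push_cast at h1 h5
      norm_num at h1 ⊢
      linarith
    · have h5 := le_fact (m := 13 + 1) (c := 1) (by omega) (by norm_num)
      generalize (((13 + 1).factorization 2 : ℕ) : ℝ) = x at h5 ⊢
      simp only [ee]
      push_cast at h1 h5
      norm_num at h1 ⊢
      linarith
    · have h5 := le_fact (m := 19 + 1) (c := 2) (by omega) (by norm_num)
      generalize (((19 + 1).factorization 2 : ℕ) : ℝ) = x at h5 ⊢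
      simp only [ee]
      push_cast at h1 h5
      norm_num at h1 ⊢
      linarith
    · have h5 := le_fact (m := 31 + 1) (c := 5) (by omega) (by norm_num)
      generalize (((31 + 1).factorization 2 : ℕ) : ℝ) = x at h5 ⊢
      simp only [ee]
      push_cast at h1 h5
      norm_num at h1 ⊢
      linarith
    · have h5 := le_fact (m := 37 + 1) (c := 1) (by omega) (by norm_num)
      generalize (((37 + 1).factorization 2 : ℕ) : ℝ) = x at h5 ⊢
      simp only [ee]
      push_cast at h1 h5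
      norm_num at h1 ⊢
      linarith
    · have h5 := le_fact (m := 43 + 1) (c := 2) (by omega) (by norm_num)
      generalize (((43 + 1).factorization 2 : ℕ) : ℝ) = x at h5 ⊢
      simp only [ee]
      push_cast at h1 h5
      norm_num at h1 ⊢
      linarith
    · have h5 := le_fact (m := 61 + 1) (c := 1) (by omega) (by norm_num)
      generalize (((61 + 1).factorization 2 : ℕ) : ℝ) = x at h5 ⊢
      simp only [ee]
      push_cast at h1 h5
      norm_num at h1 ⊢
      linarith
    · have h5 := le_fact (m := 67 + 1) (c := 2) (by omega) (by norm_num)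
      generalize (((67 + 1).factorization 2 : ℕ) : ℝ) = x at h5 ⊢
      simp only [ee]
      push_cast at h1 h5
      norm_num at h1 ⊢
      linarith
  · have h4 : ee p = 0 := by
      unfold ee
      rw [if_neg (by omega), if_neg (by omega), if_neg (by omega), if_neg (by omega),
        if_neg (by omega)]
    have h5 : (73 : ℝ) ≤ p := by exact_mod_cast h3
    have h6 : 1 / (p : ℝ) ≤ 1 / 73 := one_div_le_one_div_of_le (by norm_num) h5
    rw [h4]
    linarith

theorem sum_AA_small {n : ℕ} (hn : n ≠ 0) (h3 : ¬ 3 ∣ n) (h : sigE n = 2 * n) :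
    ∑ p ∈ AA n, ww p ≤ (137 / 10000) * (max 1 (n.factorization 2) : ℕ) + 2063 / 10000 := by
  have h1 : ∑ p ∈ AA n, ww p ≤ (137 / 10000) * ((∑ p ∈ AA n, (p + 1).factorization 2 : ℕ) : ℝ) +
      ∑ p ∈ AA n, ee p := by
    push_cast
    rw [Finset.mul_sum, ← Finset.sum_add_distrib]
    exact Finset.sum_le_sum fun p hp => ww_ee (mem_AA.1 hp).1 (AA_mod hn h3 h hp)
  have h2 : ((∑ p ∈ AA n, (p + 1).factorization 2 : ℕ) : ℝ) ≤
      (max 1 (n.factorization 2) : ℕ) := by
    exact_mod_cast two_adic hn h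
  have h4 : ∑ p ∈ AA n, ee p ≤ (0 : ℕ) * 0 + ∑ p ∈ ({7, 13, 19, 37, 61} : Finset ℕ), (ee p - 0) := by
    have h5 : ∑ p ∈ AA n, ee p ≤ ∑ p ∈ (AA n).filter (fun p => p ∈ ({7, 13, 19, 37, 61} : Finset ℕ)),
        ee p := by
      rw [Finset.sum_filter]
      refine Finset.sum_le_sum fun p _ => ?_
      split_ifs with h6
      · exact le_rfl
      · simp only [mem_insert, mem_singleton, not_or] at h6
        unfold ee
        rw [if_neg h6.1, if_neg h6.2.1, if_neg h6.2.2.1, if_neg h6.2.2.2.1, if_neg h6.2.2.2.2]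
    refine h5.trans ?_
    simp only [sub_zero, mul_zero, zero_add]
    refine Finset.sum_le_sum_of_subset_of_nonneg (fun t ht => (mem_filter.1 ht).2) ?_
    intro t ht _
    simp only [mem_insert, mem_singleton] at ht
    rcases ht with rfl | rfl | rfl | rfl | rfl <;> norm_num [ee]
  have h5 : (0 : ℕ) * (0 : ℝ) + ∑ p ∈ ({7, 13, 19, 37, 61} : Finset ℕ), (ee p - 0) ≤ 2063 / 10000 := by
    norm_num [ee]
  linarith [mul_le_mul_of_nonneg_left h2 (show (0 : ℝ) ≤ (137 / 10000) by norm_num)]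

theorem rho_le (a : ℕ) (ha : a ≠ 0) : rho a ≤ (sE 2 a : ℝ) / 2 ^ a - 1 := by
  unfold rho
  have h := sE_pos (p := 2) (by norm_num) ha
  have h1 : (0 : ℝ) < sE 2 a := by exact_mod_cast h
  exact Real.log_le_sub_one_of_pos (by positivity)

theorem rho_zero : rho 0 = 0 := by
  unfold rho sE
  simp

theorem rho_four : rho 4 ≤ 3193 / 10000 := by
  have h1 : rho 4 = Real.log (11 / 8) := by
    unfold rho
    have : sE 2 4 = 22 := by decide
    rw [this]
    norm_num
  have h2 : 2 * Real.log (11 / 8) = Real.log 2 + Real.log (121 / 128) := by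
    rw [← Real.log_mul (by norm_num) (by norm_num), ← Real.log_rpow (by norm_num)]
    norm_num
  have h3 : Real.log (121 / 128) ≤ 121 / 128 - 1 := Real.log_le_sub_one_of_pos (by norm_num)
  have h4 := Real.log_two_lt_d9
  rw [h1]
  norm_num at h3 h4 ⊢
  linarith

set_option maxRecDepth 100000 in
theorem sE_small : ∀ a ∈ Finset.Icc 1 23, a = 2 ∨ a = 4 ∨
    10000 * sE 2 a + 137 * a * 2 ^ a ≤ 13800 * 2 ^ a := by
  decide +kernel

theorem rho_small {a : ℕ} (ha : a ≤ 23) (ha2 : a ≠ 2) :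
    rho a + (137 / 10000) * (max 1 a : ℕ) ≤ 38 / 100 := by
  rcases Nat.eq_zero_or_pos a with rfl | hpos
  · rw [rho_zero]
    norm_num
  rw [max_eq_right hpos]
  rcases sE_small a (mem_Icc.2 ⟨hpos, ha⟩) with h | h | h
  · exact absurd h ha2
  · have := rho_four
    subst h
    norm_num at this ⊢
    linarith
  · have h1 := rho_le a hpos.ne'
    have h2 : (10000 : ℝ) * sE 2 a + 137 * a * 2 ^ a ≤ 13800 * 2 ^ a := by exact_mod_cast h
    have h3 : (0 : ℝ) < 2 ^ a := by positivity
    have h4 : (sE 2 a : ℝ) / 2 ^ a ≤ 138 / 100 - (137 / 10000) * a := by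
      rw [div_le_iff₀ h3]
      linarith
    linarith

theorem rho_large {a : ℕ} (ha : 24 ≤ a) : rho a ≤ 1 / 2048 := by
  have h1 := rho_le a (by omega)
  have h2 : sE 2 a ≤ 2 ^ a + ∑ b ∈ Finset.range (a / 2 + 1), 2 ^ b := by
    unfold sE
    have h3 : a.divisors ⊆ insert a (Finset.range (a / 2 + 1)) := by
      intro b hb
      rw [Nat.mem_divisors] at hb
      rw [mem_insert, mem_range]
      obtain ⟨c, hc⟩ := hb.1
      rcases Nat.lt_or_ge c 2 with h2 | h2
      · left
        interval_cases c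
        · omega
        · omega
      · right
        have h3 : b * 2 ≤ b * c := Nat.mul_le_mul_left b h2
        omega
    refine (Finset.sum_le_sum_of_subset h3).trans ?_
    rw [Finset.sum_insert]
    rw [mem_range]
    omega
  have h3 : ∑ b ∈ Finset.range (a / 2 + 1), 2 ^ b ≤ 2 ^ (a / 2 + 1) := by
    have := Nat.geomSum_lt (m := 2) (n := a / 2 + 1) (s := Finset.range (a / 2 + 1)) le_rfl
      (fun k hk => mem_range.1 hk)
    exact this.le
  have h4 : 2 ^ (a / 2 + 1) * 2 ^ 11 ≤ 2 ^ a := by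
    rw [← pow_add]
    exact Nat.pow_le_pow_right (by norm_num) (by omega)
  have h5 : (sE 2 a : ℝ) * 2048 ≤ 2 ^ a * 2049 := by
    have : sE 2 a * 2048 ≤ 2 ^ a * 2049 := by
      have e : (2 : ℕ) ^ 11 = 2048 := by norm_num
      rw [e] at h4
      have h5 := h2.trans (Nat.add_le_add_left h3 _)
      linarith
    exact_mod_cast this
  have h6 : (0 : ℝ) < 2 ^ a := by positivity
  have h7 : (sE 2 a : ℝ) / 2 ^ a ≤ 2049 / 2048 := by
    rw [div_le_div_iff₀ h6 (by norm_num)]
    linarith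
  linarith

/-- the case `v_2(n) ≤ 23` -/
theorem small {n : ℕ} (hn : n ≠ 0) (h3 : ¬ 3 ∣ n) (h : sigE n = 2 * n)
    (hc : (TT n).card ≤ 14) : 24 ≤ n.factorization 2 := by
  by_contra hlt
  have h1 := log_le hn h
  have h2 := sum_TT h3 hc
  have h4 := sum_AA_small hn h3 h
  have h5 := rho_small (a := n.factorization 2) (by omega) (fact_ne_two hn h3 h)
  have h6 := Real.log_two_gt_d9
  norm_num at h6
  linarith

end Pool.Agent.EP364
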